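import Pool.Agent.Y155.ND.TL

/-!
# Packets with blobs: the weights
-/

set_option autoImplicit false

namespace Pool.Agent.Y155.NE

open Pool.Agent.Y5 Pool.Agent.Y5.D Pool.Agent.Y155.ND Finset

/-- the weight with the small part -/
noncomputable def b (N N' : ℕ) (γ : ℝ) (k : Z3) : ℝ :=
  g N k + γ * (ic N (hh N N') k + ic N (-hh N N') k)

/-- support of the small part -/
noncomputable def H (N N' : ℕ) : Finset Z3 := cube N (hh N N') ∪ cube N (-hh N N')

/-- support of the weight -/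
noncomputable def SS (N N' : ℕ) : Finset Z3 := Q N ∪ H N N'

theorem mem_SS {N N' : ℕ} {k : Z3} : k ∈ SS N N' ↔
    k ∈ Q N ∨ k ∈ cube N (hh N N') ∨ k ∈ cube N (-hh N N') := by
  simp only [SS, H, mem_union]

theorem mem_hp {N N' : ℕ} {k : Z3} : k ∈ cube N (hh N N') ↔
    (21 * (N' : ℤ) - N ≤ k 0 ∧ k 0 ≤ 21 * N' + N) ∧
    ((N' : ℤ) + 9 * N ≤ k 1 ∧ k 1 ≤ N' + 11 * N) ∧ (-(N : ℤ) ≤ k 2 ∧ k 2 ≤ N) := by
  rw [mem_cube, hh0, hh1, hh2]
  omega

theorem mem_hm {N N' : ℕ} {k : Z3} : k ∈ cube N (-hh N N') ↔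
    (-(21 * (N' : ℤ)) - N ≤ k 0 ∧ k 0 ≤ -(21 * N') + N) ∧
    (-((N' : ℤ) + 11 * N) ≤ k 1 ∧ k 1 ≤ -(N' + 9 * N)) ∧ (-(N : ℤ) ≤ k 2 ∧ k 2 ≤ N) := by
  rw [mem_cube]
  simp only [Pi.neg_apply, hh0, hh1, hh2]
  omega

theorem mem_neg {N : ℕ} {c k : Z3} : -k ∈ cube N c ↔ k ∈ cube N (-c) := by
  rw [mem_cube, mem_cube]
  simp only [Pi.neg_apply]
  omega

theorem ic_neg (N : ℕ) (c k : Z3) : ic N c (-k) = ic N (-c) k := by
  simp only [ic, mem_neg]

theorem b_neg (N N' : ℕ) (γ : ℝ) (k : Z3) : b N N' γ (-k) = b N N' γ k := by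
  simp only [b, g_neg, ic_neg, neg_neg]
  ring

theorem Q_sub (N N' : ℕ) : Q N ⊆ SS N N' := fun _ h => mem_SS.2 (Or.inl h)

theorem hp_sub (N N' : ℕ) : cube N (hh N N') ⊆ SS N N' := fun _ h => mem_SS.2 (Or.inr (Or.inl h))

theorem hm_sub (N N' : ℕ) : cube N (-hh N N') ⊆ SS N N' := fun _ h => mem_SS.2 (Or.inr (Or.inr h))

theorem mem_of_b {N N' : ℕ} {γ : ℝ} {k : Z3} (h : b N N' γ k ≠ 0) : k ∈ SS N N' := by
  by_contra h1
  rw [mem_SS] at h1
  push Not at h1
  apply h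
  simp [b, g_zero h1.1, ic, h1.2.1, h1.2.2]

theorem b_nonneg {N N' : ℕ} {γ : ℝ} (hγ : 0 ≤ γ) (k : Z3) : 0 ≤ b N N' γ k := by
  exact add_nonneg (g_nonneg N k) (mul_nonneg hγ (add_nonneg (ic_nonneg _ _ _) (ic_nonneg _ _ _)))

/-- the support, up to the third coordinate -/
theorem SS_cases {N N' : ℕ} {k : Z3} (h : k ∈ SS N N') :
    ((16 * (N : ℤ) ≤ k 0 ∧ k 0 ≤ 22 * N ∨ -(22 * (N : ℤ)) ≤ k 0 ∧ k 0 ≤ -(16 * N)) ∧
      ((-(N : ℤ) ≤ k 1 ∧ k 1 ≤ N) ∨
      ((16 * (N : ℤ) ≤ k 1 ∧ k 1 ≤ 18 * N ∨ -(18 * (N : ℤ)) ≤ k 1 ∧ k 1 ≤ -(16 * N))))) ∨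
    ((21 * (N' : ℤ) - N ≤ k 0 ∧ k 0 ≤ 21 * N' + N) ∧ ((N' : ℤ) + 9 * N ≤ k 1 ∧ k 1 ≤ N' + 11 * N) ∨
      (-(21 * (N' : ℤ)) - N ≤ k 0 ∧ k 0 ≤ -(21 * N') + N) ∧
        (-((N' : ℤ) + 11 * N) ≤ k 1 ∧ k 1 ≤ -(N' + 9 * N))) := by
  rcases mem_SS.1 h with h | h | h
  · left
    have := Q_bd h
    refine ⟨this.1, ?_⟩
    rcases this.2.1 with h1 | h1
    · exact Or.inl ⟨h1.1, h1.2.1⟩
    · exact Or.inr h1.1
  · right; left
    have := mem_hp.1 h
    exact ⟨this.1, this.2.1⟩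
  · right; right
    have := mem_hm.1 h
    exact ⟨this.1, this.2.1⟩

section
variable {N N' : ℕ} (hN : 1 ≤ N) (hN' : 2 * N ≤ N')
include hN hN'

theorem hp_notMem {k : Z3} (h : k ∈ cube N (hh N N')) : k ∉ Q N := by
  intro h'
  have h1 := (Q_bd h').1
  rw [mem_hp] at h
  omega

theorem hm_notMem {k : Z3} (h : k ∈ cube N (-hh N N')) : k ∉ Q N := by
  intro h'
  have h1 := (Q_bd h').1
  rw [mem_hm] at h
  omega

theorem hp_hm {k : Z3} (h : k ∈ cube N (hh N N')) : k ∉ cube N (-hh N N') := by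
  intro h'
  rw [mem_hm] at h'
  rw [mem_hp] at h
  omega

theorem b_eq_g {γ : ℝ} {k : Z3} (h : k ∈ Q N) : b N N' γ k = g N k := by
  have h1 : k ∉ cube N (hh N N') := fun h' => hp_notMem hN hN' h' h
  have h2 : k ∉ cube N (-hh N N') := fun h' => hm_notMem hN hN' h' h
  simp [b, ic, h1, h2]

theorem b_hp (γ : ℝ) {k : Z3} (h : k ∈ cube N (hh N N')) : b N N' γ k = γ := by
  simp [b, ic, g_zero (hp_notMem hN hN' h), h, hp_hm hN hN' h]

theorem b_hm (γ : ℝ) {k : Z3} (h : k ∈ cube N (-hh N N')) : b N N' γ k = γ := by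
  have h1 : k ∉ cube N (hh N N') := fun h' => hp_hm hN hN' h' h
  simp [b, ic, g_zero (hm_notMem hN hN' h), h, h1]

theorem b_le_one {γ : ℝ} (hγ : γ ≤ 1) (k : Z3) : b N N' γ k ≤ 1 := by
  by_cases h : k ∈ SS N N'
  · rcases mem_SS.1 h with h | h | h
    · rw [b_eq_g hN hN' h]; exact g_le_one hN k
    · rw [b_hp hN hN' γ h]; exact hγ
    · rw [b_hm hN hN' γ h]; exact hγ
  · by_contra h1
    push Not at h1
    exact h (mem_of_b (γ := γ) (by linarith))

omit hN hN' in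
theorem sum_gS (F : Z3 → ℝ) : ∑ k ∈ SS N N', g N k * F k = ∑ k ∈ Q N, g N k * F k := by
  symm
  apply sum_subset (Q_sub N N')
  intro k _ hk
  rw [g_zero hk, zero_mul]

omit hN hN' in
theorem sum_b (γ : ℝ) (F : Z3 → ℝ) : ∑ k ∈ SS N N', b N N' γ k * F k =
    ∑ k ∈ Q N, g N k * F k + γ * (∑ k ∈ cube N (hh N N'), F k + ∑ k ∈ cube N (-hh N N'), F k) := by
  rw [← sum_gS (N' := N'), ← sum_ic (hp_sub N N'), ← sum_ic (hm_sub N N'), mul_add, mul_sum,
    mul_sum, ← sum_add_distrib, ← sum_add_distrib]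
  refine sum_congr rfl fun k _ => ?_
  rw [b]; ring

theorem b_sq (γ : ℝ) (k : Z3) : b N N' γ k ^ 2 =
    g N k ^ 2 + γ ^ 2 * (ic N (hh N N') k + ic N (-hh N N') k) := by
  by_cases h : k ∈ SS N N'
  · rcases mem_SS.1 h with h | h | h
    · have h1 : k ∉ cube N (hh N N') := fun h' => hp_notMem hN hN' h' h
      have h2 : k ∉ cube N (-hh N N') := fun h' => hm_notMem hN hN' h' h
      rw [b_eq_g hN hN' h]
      simp [ic, h1, h2]
    · rw [b_hp hN hN' γ h]
      simp [ic, g_zero (hp_notMem hN hN' h), h, hp_hm hN hN' h]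
    · have h1 : k ∉ cube N (hh N N') := fun h' => hp_hm hN hN' h' h
      rw [b_hm hN hN' γ h]
      simp [ic, g_zero (hm_notMem hN hN' h), h, h1]
  · rw [mem_SS] at h
    push Not at h
    simp [b, g_zero h.1, ic, h.2.1, h.2.2]

theorem sum_b_sq (γ : ℝ) (F : Z3 → ℝ) : ∑ k ∈ SS N N', b N N' γ k ^ 2 * F k =
    ∑ k ∈ Q N, g N k ^ 2 * F k +
      γ ^ 2 * (∑ k ∈ cube N (hh N N'), F k + ∑ k ∈ cube N (-hh N N'), F k) := by
  have h0 : ∑ k ∈ Q N, g N k ^ 2 * F k = ∑ k ∈ SS N N', g N k ^ 2 * F k := by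
    apply sum_subset (Q_sub N N')
    intro k _ hk
    rw [g_zero hk]; ring
  rw [h0, ← sum_ic (hp_sub N N'), ← sum_ic (hm_sub N N'), mul_add, mul_sum,
    mul_sum, ← sum_add_distrib, ← sum_add_distrib]
  refine sum_congr rfl fun k _ => ?_
  rw [b_sq hN hN']; ring

end

theorem sum_neg_cube (N : ℕ) (c : Z3) (F : Z3 → ℝ) : ∑ k ∈ cube N (-c), F k =
    ∑ k ∈ cube N c, F (-k) := by
  refine sum_nbij' (fun p => -p) (fun p => -p) (fun p hp => ?_) (fun p hp => ?_)
    (fun p _ => neg_neg p) (fun p _ => neg_neg p) fun p _ => by rw [neg_neg]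
  · rw [mem_neg]; exact hp
  · rw [mem_neg, neg_neg]; exact hp

/-! ### the zeros of the interaction table -/

section
variable {N : ℕ → ℕ} (hS : Sc N)
include hS

theorem SS_small {j n : ℕ} (hj : j < n) {q : Z3} (hq : q ∈ SS (N j) (N (j + 1))) :
    (-(2 * (N n : ℤ)) ≤ q 1 ∧ q 1 ≤ 2 * N n) ∧ -(22 * (N n : ℤ)) ≤ q 0 ∧ q 0 ≤ 22 * N n := by
  have h1 := hS.lt hj
  have h2 := hS.le (Nat.succ_le_of_lt hj)
  have h3 := SS_cases hq
  have h4 := hS.one j
  simp only [Nat.succ_eq_add_one] at h2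
  omega

/-- no triads in the other cases -/
theorem no_triad {i j n : ℕ} (hj : j < n) (hi : i ≠ n) (hc : ¬(i = j ∧ n = j + 1)) {p q : Z3}
    (hp : p ∈ SS (N i) (N (i + 1))) (hq : q ∈ SS (N j) (N (j + 1)))
    (hk : p + q ∈ SS (N n) (N (n + 1))) : False := by
  have hqs := SS_small hS hj hq
  have hp' := SS_cases hp
  have hq' := SS_cases hq
  have hk' := SS_cases hk
  simp only [Pi.add_apply] at hk'
  have o1 := hS.one n
  have o2 := hS.one i
  have o3 := hS.one j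
  have g1 := hS.gr n
  have g2 := hS.gr i
  have g3 := hS.gr j
  rcases lt_trichotomy i n with hin | hin | hin
  · -- `i < n`
    have hps := SS_small hS hin hp
    rcases hk' with hk' | hk'
    · -- `k` in the main part
      by_cases hi1 : i + 1 = n
      · subst hi1
        have hj1 : j < i := by omega
        have hqi := SS_small hS hj1 hq
        have l1 := hS.lt hj1
        have l2 := hS.le (Nat.succ_le_of_lt hj1)
        simp only [Nat.succ_eq_add_one] at l2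
        omega
      · have hi2 : i + 1 < n := by omega
        have l0 := hS.lt hi2
        by_cases hj1 : j + 1 = n
        · subst hj1
          have hij : i < j := by omega
          have hpj := SS_small hS hij hp
          have l1 := hS.lt hij
          omega
        · have hj2 : j + 1 < n := by omega
          have l1 := hS.lt hj2
          omega
    · omega
  · exact hi hin
  · -- `n < i`
    have l1 := hS.lt hin
    clear hq' g3 o3 hj hi hc
    rcases hp' with hp' | hp'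
    · rcases hk' with hk' | hk'
      · clear g1 g2
        omega
      · by_cases hi1 : i = n + 1
        · subst hi1
          omega
        · have hi2 : n + 1 < i := by omega
          have l2 := hS.lt hi2
          clear g2
          omega
    · have l3 := hS.le (Nat.succ_le_of_lt hin)
      simp only [Nat.succ_eq_add_one] at l3
      omega

/-- triads `(n, j, n)`, `j < n` -/
theorem triad_B {j n : ℕ} (hj : j < n) {p q : Z3} (hq : q ∈ SS (N j) (N (j + 1)))
    (hp : p ∈ SS (N n) (N (n + 1))) (hk : p + q ∈ SS (N n) (N (n + 1))) :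
    p ∈ Q (N n) ↔ p + q ∈ Q (N n) := by
  have hqs := SS_small hS hj hq
  have o1 := hS.one n
  have g1 := hS.gr n
  rcases mem_SS.1 hp with h | h | h
  · have h0 := Q_bd h
    rcases mem_SS.1 hk with h' | h' | h'
    · exact ⟨fun _ => h', fun _ => h⟩
    · exfalso
      rw [mem_hp] at h'
      simp only [Pi.add_apply] at h'
      omega
    · exfalso
      rw [mem_hm] at h'
      simp only [Pi.add_apply] at h'
      omega
  · have hn := hp_notMem o1 (by omega) h
    refine ⟨fun h' => absurd h' hn, fun h' => ?_⟩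
    exfalso
    have h1 := Q_bd h'
    rw [mem_hp] at h
    simp only [Pi.add_apply] at h1
    omega
  · have hn := hm_notMem o1 (by omega) h
    refine ⟨fun h' => absurd h' hn, fun h' => ?_⟩
    exfalso
    have h1 := Q_bd h'
    rw [mem_hm] at h
    simp only [Pi.add_apply] at h1
    omega

/-- triads `(n, n, n + 1)` -/
theorem triad_C {n : ℕ} {p q : Z3} (hp : p ∈ SS (N n) (N (n + 1)))
    (hq : q ∈ SS (N n) (N (n + 1))) (hk : p + q ∈ SS (N (n + 1)) (N (n + 1 + 1))) :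
    (p ∈ cube (N n) (hh (N n) (N (n + 1))) ∧ q ∈ cube (N n) (c3 (N n))) ∨
    (p ∈ cube (N n) (-hh (N n) (N (n + 1))) ∧ -q ∈ cube (N n) (c3 (N n))) ∨
    (q ∈ cube (N n) (hh (N n) (N (n + 1))) ∧ p ∈ cube (N n) (c3 (N n))) ∨
    (q ∈ cube (N n) (-hh (N n) (N (n + 1))) ∧ -p ∈ cube (N n) (c3 (N n))) := by
  have o1 := hS.one n
  have g1 := hS.gr n
  have g2 := hS.gr (n + 1)
  have hk' := SS_cases hk
  simp only [Pi.add_apply] at hk'
  rcases mem_SS.1 hp with h | h | h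
  · have hpb := h
    rw [mem_Q, mem_c0, mem_c1, mem_c2, mem_c3] at hpb
    rcases mem_SS.1 hq with h' | h' | h'
    · exfalso
      have hqb := h'
      rw [mem_Q, mem_c0, mem_c1, mem_c2, mem_c3] at hqb
      omega
    · right; right; left
      refine ⟨h', ?_⟩
      rw [mem_hp] at h'
      rw [mem_c3]
      omega
    · right; right; right
      refine ⟨h', ?_⟩
      rw [mem_hm] at h'
      rw [mem_c3]
      simp only [Pi.neg_apply]
      omega
  · rcases mem_SS.1 hq with h' | h' | h'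
    · left
      refine ⟨h, ?_⟩
      have hqb := h'
      rw [mem_Q, mem_c0, mem_c1, mem_c2, mem_c3] at hqb
      rw [mem_hp] at h
      rw [mem_c3]
      omega
    · exfalso
      rw [mem_hp] at h h'
      omega
    · exfalso
      rw [mem_hp] at h
      rw [mem_hm] at h'
      omega
  · rcases mem_SS.1 hq with h' | h' | h'
    · right; left
      refine ⟨h, ?_⟩
      have hqb := h'
      rw [mem_Q, mem_c0, mem_c1, mem_c2, mem_c3] at hqb
      rw [mem_hm] at h
      rw [mem_c3]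
      simp only [Pi.neg_apply]
      omega
    · exfalso
      rw [mem_hm] at h
      rw [mem_hp] at h'
      omega
    · exfalso
      rw [mem_hm] at h h'
      omega

end

end Pool.Agent.Y155.NE
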