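import Pool.Agent.Y155.NE.E1

/-!
# Packets with blobs: the entries `(n, j, n)`, `j < n`
-/

set_option autoImplicit false
set_option linter.unusedSectionVars false

namespace Pool.Agent.Y155.NE

open Pool.Agent.Y5 Pool.Agent.Y5.D Pool.Agent.Y155.ND Finset

/-- the weight of the packet number `n` -/
noncomputable def bb (N : ℕ → ℕ) (γ : ℕ → ℝ) (n : ℕ) : Z3 → ℝ := b (N n) (N (n + 1)) (γ n)

theorem bb_neg (N : ℕ → ℕ) (γ : ℕ → ℝ) (n : ℕ) (k : Z3) : bb N γ n (-k) = bb N γ n k :=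
  b_neg _ _ _ _

theorem mem_of_bb {N : ℕ → ℕ} {γ : ℕ → ℝ} {n : ℕ} {k : Z3} (h : bb N γ n k ≠ 0) :
    k ∈ SS (N n) (N (n + 1)) := mem_of_b h

/-- interaction with one mode -/
noncomputable def II (N : ℕ → ℕ) (γ : ℕ → ℝ) (n : ℕ) (q : Z3) : ℝ :=
  ∑ p ∈ SS (N n) (N (n + 1)), bb N γ n p * (bb N γ n (p + q) * (cr p q * dt q (p + q)))

theorem tri_B_eq (N : ℕ → ℕ) (γ : ℕ → ℝ) (j n : ℕ) : tri (bb N γ n) (bb N γ j) (bb N γ n) =
    ∑ q ∈ SS (N j) (N (j + 1)), bb N γ j q * II N γ n q := by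
  rw [tri_eq_sum (A := SS (N n) (N (n + 1))) (B := SS (N j) (N (j + 1)))
    (fun k hk => mem_of_bb hk) (fun k hk => mem_of_bb hk), sum_comm]
  refine sum_congr rfl fun q _ => ?_
  rw [II, mul_sum]
  refine sum_congr rfl fun p _ => ?_
  rw [tm]
  ring

/-- bounds on the small part of the support -/
theorem hp_abs {N N' : ℕ} {k : Z3} (hN' : 11 * N ≤ N') (h : k ∈ cube N (hh N N')) :
    |(k 0 : ℝ)| ≤ 22 * N' ∧ |(k 1 : ℝ)| ≤ 22 * N' := by
  rw [mem_hp] at h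
  have a0 : -(22 * (N' : ℤ)) ≤ k 0 ∧ k 0 ≤ 22 * N' := by omega
  have a1 : -(22 * (N' : ℤ)) ≤ k 1 ∧ k 1 ≤ 22 * N' := by omega
  simp only [abs_le]
  refine ⟨⟨?_, ?_⟩, ⟨?_, ?_⟩⟩
  · exact_mod_cast a0.1
  · exact_mod_cast a0.2
  · exact_mod_cast a1.1
  · exact_mod_cast a1.2

theorem hm_abs {N N' : ℕ} {k : Z3} (hN' : 11 * N ≤ N') (h : k ∈ cube N (-hh N N')) :
    |(k 0 : ℝ)| ≤ 22 * N' ∧ |(k 1 : ℝ)| ≤ 22 * N' := by
  have h1 := hp_abs (k := -k) hN' (by rw [mem_neg]; exact h)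
  simpa using h1

theorem kern_bd {p q : Z3} {y z : ℝ} (hz : 0 ≤ z) (hzy : z ≤ y) (p0 : |(p 0 : ℝ)| ≤ 22 * y)
    (p1 : |(p 1 : ℝ)| ≤ 22 * y) (q0 : |(q 0 : ℝ)| ≤ z) (q1 : |(q 1 : ℝ)| ≤ z) :
    |cr p q * dt q (p + q)| ≤ 2024 * (y ^ 2 * z ^ 2) := by
  have hy : 0 ≤ y := hz.trans hzy
  have s0 : |((p + q) 0 : ℝ)| ≤ 23 * y := by
    rw [Pi.add_apply]; push_cast
    refine (abs_add_le _ _).trans ?_
    linarith
  have s1 : |((p + q) 1 : ℝ)| ≤ 23 * y := by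
    rw [Pi.add_apply]; push_cast
    refine (abs_add_le _ _).trans ?_
    linarith
  have c1 := abs_cr_le (by positivity) p0 p1 q0 q1
  have c2 := abs_dt_le hz q0 q1 s0 s1
  rw [abs_mul]
  calc |cr p q| * |dt q (p + q)| ≤ (2 * (22 * y * z)) * (2 * (z * (23 * y))) :=
        mul_le_mul c1 c2 (abs_nonneg _) (by positivity)
    _ = 2024 * (y ^ 2 * z ^ 2) := by ring

section
variable {N : ℕ → ℕ} (hS : Sc N) (γ : ℕ → ℝ)
include hS

theorem bb_shift {j n : ℕ} (hj : j < n) (hγ : 0 ≤ γ n) {p q : Z3} (hq : q ∈ SS (N j) (N (j + 1)))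
    (hp : p ∈ SS (N n) (N (n + 1))) (hpn : p ∉ Q (N n)) : |bb N γ n (p + q)| ≤ γ n := by
  have o1 := hS.one n
  have o2 := hS.two n
  by_cases h : bb N γ n (p + q) = 0
  · rw [h, abs_zero]; exact hγ
  · have h1 := mem_of_bb h
    have h2 := triad_B hS hj hq hp h1
    have h3 : p + q ∉ Q (N n) := fun h' => hpn (h2.2 h')
    rcases mem_SS.1 h1 with h4 | h4 | h4
    · exact absurd h4 h3
    · rw [bb, b_hp o1 o2 _ h4, abs_of_nonneg hγ]
    · rw [bb, b_hm o1 o2 _ h4, abs_of_nonneg hγ]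

/-- the contribution of the small parts -/
theorem II_sub {j n : ℕ} (hj : j < n) (hγ : 0 ≤ γ n)
    (hγ' : 10 ^ 5 * (γ n * (N (n + 1) : ℝ)) ≤ N n) {q : Z3} (hq : q ∈ SS (N j) (N (j + 1)))
    {z : ℝ} (hz : 0 ≤ z) (hzy : z ≤ N (n + 1)) (q0 : |(q 0 : ℝ)| ≤ z) (q1 : |(q 1 : ℝ)| ≤ z) :
    |II N γ n q - I1 (N n) q| ≤ 1 / 10 ^ 6 * (V (N n) * z ^ 2) := by
  have o1 := hS.one n
  have o2 := hS.two n
  have hg := hS.gr n
  set x : ℝ := (N n : ℝ) with hx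
  set y : ℝ := (N (n + 1) : ℝ) with hy
  have hm := m_pos (N n)
  have e : II N γ n q - I1 (N n) q = γ n * (∑ p ∈ cube (N n) (hh (N n) (N (n + 1))),
      bb N γ n (p + q) * (cr p q * dt q (p + q)) + ∑ p ∈ cube (N n) (-hh (N n) (N (n + 1))),
      bb N γ n (p + q) * (cr p q * dt q (p + q))) := by
    rw [II, bb, sum_b, I1, add_comm, add_sub_assoc]
    have : ∑ p ∈ Q (N n), g (N n) p * (b (N n) (N (n + 1)) (γ n) (p + q) *
        (cr p q * dt q (p + q))) = ∑ p ∈ Q (N n), g (N n) p * g (N n) (p + q) *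
        (cr p q * dt q (p + q)) := by
      refine sum_congr rfl fun p hp => ?_
      have h2 : b (N n) (N (n + 1)) (γ n) (p + q) = g (N n) (p + q) := by
        by_cases h : p + q ∈ Q (N n)
        · exact b_eq_g o1 o2 h
        · rw [g_zero h]
          by_contra h'
          exact h ((triad_B hS hj hq (Q_sub _ _ hp) (mem_of_b h')).1 hp)
      rw [h2]; ring
    rw [this, sub_self, add_zero]
  have key : ∀ p, p ∈ SS (N n) (N (n + 1)) → p ∉ Q (N n) → |(p 0 : ℝ)| ≤ 22 * y →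
      |(p 1 : ℝ)| ≤ 22 * y → |bb N γ n (p + q) * (cr p q * dt q (p + q))| ≤
      γ n * (2024 * (y ^ 2 * z ^ 2)) := by
    intro p hp hpn p0 p1
    rw [abs_mul]
    exact mul_le_mul (bb_shift hS γ hj hγ hq hp hpn) (kern_bd hz hzy p0 p1 q0 q1) (abs_nonneg _) hγ
  have s1 : |∑ p ∈ cube (N n) (hh (N n) (N (n + 1))), bb N γ n (p + q) *
      (cr p q * dt q (p + q))| ≤ m (N n) ^ 3 * (γ n * (2024 * (y ^ 2 * z ^ 2))) := by
    refine (abs_sum_le_sum_abs _ _).trans ?_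
    refine (sum_le_card_nsmul _ _ (γ n * (2024 * (y ^ 2 * z ^ 2))) fun p hp => ?_).trans
      (le_of_eq (by rw [nsmul_eq_mul, card_cube]))
    have := hp_abs (by omega) hp
    exact key p (hp_sub _ _ hp) (hp_notMem o1 o2 hp) this.1 this.2
  have s2 : |∑ p ∈ cube (N n) (-hh (N n) (N (n + 1))), bb N γ n (p + q) *
      (cr p q * dt q (p + q))| ≤ m (N n) ^ 3 * (γ n * (2024 * (y ^ 2 * z ^ 2))) := by
    refine (abs_sum_le_sum_abs _ _).trans ?_
    refine (sum_le_card_nsmul _ _ (γ n * (2024 * (y ^ 2 * z ^ 2))) fun p hp => ?_).trans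
      (le_of_eq (by rw [nsmul_eq_mul, card_cube]))
    have := hm_abs (by omega) hp
    exact key p (hm_sub _ _ hp) (hm_notMem o1 o2 hp) this.1 this.2
  rw [e, abs_mul, abs_of_nonneg hγ]
  have hy0 : 0 ≤ y := by positivity
  have h1 : (10 ^ 5 * (γ n * y)) ^ 2 ≤ x ^ 2 := pow_le_pow_left₀ (by positivity) hγ' 2
  calc _ ≤ γ n * (m (N n) ^ 3 * (γ n * (2024 * (y ^ 2 * z ^ 2))) +
        m (N n) ^ 3 * (γ n * (2024 * (y ^ 2 * z ^ 2)))) :=
        mul_le_mul_of_nonneg_left ((abs_add_le _ _).trans (add_le_add s1 s2)) hγ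
    _ = 4048 / 10 ^ 10 * ((10 ^ 5 * (γ n * y)) ^ 2 * (m (N n) ^ 3 * z ^ 2)) := by ring
    _ ≤ 4048 / 10 ^ 10 * (x ^ 2 * (m (N n) ^ 3 * z ^ 2)) := by
        refine mul_le_mul_of_nonneg_left (mul_le_mul_of_nonneg_right h1 (by positivity)) (by norm_num)
    _ ≤ 1 / 10 ^ 6 * (x ^ 2 * (m (N n) ^ 3 * z ^ 2)) :=
        mul_le_mul_of_nonneg_right (by norm_num) (by positivity)
    _ = _ := by rw [V]; ring

theorem tri_B_est {j n : ℕ} (hj : j < n) (hγ0 : 0 ≤ γ j) (hγn : 0 ≤ γ n)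
    (hγ : 10 ^ 10 * (γ j * (N (j + 1) : ℝ) ^ 2) ≤ (N j : ℝ) ^ 2)
    (hγ' : 10 ^ 5 * (γ n * (N (n + 1) : ℝ)) ≤ N n) :
    |tri (bb N γ n) (bb N γ j) (bb N γ n) - 127449 * (V (N n) * V (N j))| ≤
      4 * (V (N n) * V (N j)) := by
  have o1 := hS.one n
  have o3 := hS.one j
  have o4 := hS.two j
  have hlt := hS.lt hj
  have hgn := hS.gr n
  have hgj := hS.gr j
  have hle := hS.le (Nat.succ_le_of_lt hj)
  simp only [Nat.succ_eq_add_one] at hle
  set X : ℝ := (N n : ℝ) with hX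
  set x : ℝ := (N j : ℝ) with hx
  set y : ℝ := (N (j + 1) : ℝ) with hy
  have hX1 : 1 ≤ X := by rw [hX]; exact_mod_cast o1
  have hx1 : 1 ≤ x := by rw [hx]; exact_mod_cast o3
  have hxX : 100000000 * x ≤ X := by rw [hX, hx]; exact_mod_cast hlt
  have hxy : 100000000 * x ≤ y := by rw [hy, hx]; exact_mod_cast hgj
  have hyX : y ≤ X := by rw [hy, hX]; exact_mod_cast hle
  have hXY : 100000000 * X ≤ (N (n + 1) : ℝ) := by rw [hX]; exact_mod_cast hgn
  have hV1 := V_one o1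
  have hV3 := V_one o3
  have hm1 := m_pos (N n)
  have hm3 := m_pos (N j)
  rw [tri_B_eq, bb, sum_b]
  -- the small part
  have hcr : ∀ q, q ∈ SS (N j) (N (j + 1)) → |(q 0 : ℝ)| ≤ 22 * y → |(q 1 : ℝ)| ≤ 22 * y →
      |II N γ n q| ≤ 20000000 * (V (N n) * y ^ 2) := by
    intro q hq q0 q1
    have a1 := II_sub hS γ hj hγn hγ' hq (z := 22 * y) (by positivity) (by linarith) q0 q1
    have a2 := I1_crude (N := N n) o1 (q := q) (y := 2 * y) (by positivity) (by linarith)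
      (by linarith)
    have a3 : |II N γ n q| ≤ |II N γ n q - I1 (N n) q| + |I1 (N n) q| := by
      have := abs_add_le (II N γ n q - I1 (N n) q) (I1 (N n) q)
      rwa [sub_add_cancel] at this
    have a4 : 0 ≤ V (N n) * y ^ 2 := by positivity
    nlinarith
  have e1 : |∑ q ∈ cube (N j) (hh (N j) (N (j + 1))), II N γ n q| ≤
      m (N j) ^ 3 * (20000000 * (V (N n) * y ^ 2)) := by
    refine (abs_sum_le_sum_abs _ _).trans ?_
    refine (sum_le_card_nsmul _ _ (20000000 * (V (N n) * y ^ 2)) fun q hq => ?_).trans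
      (le_of_eq (by rw [nsmul_eq_mul, card_cube]))
    have := hp_abs (by omega) hq
    exact hcr q (hp_sub _ _ hq) this.1 this.2
  have e2 : |∑ q ∈ cube (N j) (-hh (N j) (N (j + 1))), II N γ n q| ≤
      m (N j) ^ 3 * (20000000 * (V (N n) * y ^ 2)) := by
    refine (abs_sum_le_sum_abs _ _).trans ?_
    refine (sum_le_card_nsmul _ _ (20000000 * (V (N n) * y ^ 2)) fun q hq => ?_).trans
      (le_of_eq (by rw [nsmul_eq_mul, card_cube]))
    have := hm_abs (by omega) hq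
    exact hcr q (hm_sub _ _ hq) this.1 this.2
  have e3 : |γ j * (∑ q ∈ cube (N j) (hh (N j) (N (j + 1))), II N γ n q +
      ∑ q ∈ cube (N j) (-hh (N j) (N (j + 1))), II N γ n q)| ≤
      1 / 100 * (V (N n) * V (N j)) := by
    rw [abs_mul, abs_of_nonneg hγ0]
    calc _ ≤ γ j * (m (N j) ^ 3 * (20000000 * (V (N n) * y ^ 2)) +
          m (N j) ^ 3 * (20000000 * (V (N n) * y ^ 2))) :=
          mul_le_mul_of_nonneg_left ((abs_add_le _ _).trans (add_le_add e1 e2)) hγ0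
      _ = 40000000 / 10 ^ 10 * ((10 ^ 10 * (γ j * y ^ 2)) * (m (N j) ^ 3 * V (N n))) := by ring
      _ ≤ 40000000 / 10 ^ 10 * (x ^ 2 * (m (N j) ^ 3 * V (N n))) := by
          refine mul_le_mul_of_nonneg_left (mul_le_mul_of_nonneg_right hγ (by positivity))
            (by norm_num)
      _ ≤ 1 / 100 * (x ^ 2 * (m (N j) ^ 3 * V (N n))) :=
          mul_le_mul_of_nonneg_right (by norm_num) (by positivity)
      _ = _ := by rw [V, V]; ring
  -- the main part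
  have e4 : |∑ q ∈ Q (N j), g (N j) q * II N γ n q - 127449 * (V (N n) * V (N j))| ≤
      3 * m (N j) ^ 3 * (979616 * 180 * X ^ 2 * x ^ 3 * m (N n) ^ 2 +
      937024 * 3 * X * x ^ 3 * m (N n) ^ 3 + 1 / 10 ^ 6 * (V (N n) * (22 * x) ^ 2)) := by
    rw [← sum_M1 (N' := N j) o1, ← sum_sub_distrib]
    refine (abs_sum_le_sum_abs _ _).trans ?_
    have : ∀ q ∈ Q (N j), |g (N j) q * II N γ n q - g (N j) q * M1 (N n) q| ≤
        (979616 * 180 * X ^ 2 * x ^ 3 * m (N n) ^ 2 +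
        937024 * 3 * X * x ^ 3 * m (N n) ^ 3 + 1 / 10 ^ 6 * (V (N n) * (22 * x) ^ 2)) *
        g (N j) q := by
      intro q hq
      have g0 := g_nonneg (N j) q
      obtain ⟨q0, q1, -⟩ := Q_abs hq
      have a1 := II_sub hS γ hj hγn hγ' (Q_sub _ _ hq) (z := 22 * x) (by positivity) (by linarith)
        q0 q1
      have a2 := I1_sub o1 (by omega) hq
      rw [← mul_sub, abs_mul, abs_of_nonneg g0, mul_comm]
      refine mul_le_mul_of_nonneg_right ?_ g0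
      have a3 : |II N γ n q - M1 (N n) q| ≤ |II N γ n q - I1 (N n) q| +
          |I1 (N n) q - M1 (N n) q| := by
        have := abs_add_le (II N γ n q - I1 (N n) q) (I1 (N n) q - M1 (N n) q)
        rwa [sub_add_sub_cancel] at this
      linarith
    refine (sum_le_sum this).trans ?_
    rw [← mul_sum, sum_g_one (Subset.refl _)]
    exact le_of_eq (by ring)
  have e5 : 3 * m (N j) ^ 3 * (979616 * 180 * X ^ 2 * x ^ 3 * m (N n) ^ 2 +
      937024 * 3 * X * x ^ 3 * m (N n) ^ 3 + 1 / 10 ^ 6 * (V (N n) * (22 * x) ^ 2)) ≤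
      (3 + 1 / 100) * (V (N n) * V (N j)) := by
    have hmX : m (N n) = 2 * X + 1 := rfl
    have f1 : 979616 * 180 * x ≤ 9 / 10 * m (N n) := by rw [hmX]; linarith
    have f2 : 937024 * 3 * x ≤ 1 / 10 * X := by linarith
    have f3 : 979616 * 180 * X ^ 2 * x ^ 3 * m (N n) ^ 2 ≤
        9 / 10 * (X ^ 2 * m (N n) ^ 3 * x ^ 2) := by
      calc 979616 * 180 * X ^ 2 * x ^ 3 * m (N n) ^ 2 =
          (979616 * 180 * x) * (X ^ 2 * x ^ 2 * m (N n) ^ 2) := by ring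
        _ ≤ (9 / 10 * m (N n)) * (X ^ 2 * x ^ 2 * m (N n) ^ 2) :=
            mul_le_mul_of_nonneg_right f1 (by positivity)
        _ = _ := by ring
    have f4 : 937024 * 3 * X * x ^ 3 * m (N n) ^ 3 ≤ 1 / 10 * (X ^ 2 * m (N n) ^ 3 * x ^ 2) := by
      calc 937024 * 3 * X * x ^ 3 * m (N n) ^ 3 = (937024 * 3 * x) * (X * x ^ 2 * m (N n) ^ 3) := by
            ring
        _ ≤ (1 / 10 * X) * (X * x ^ 2 * m (N n) ^ 3) :=
            mul_le_mul_of_nonneg_right f2 (by positivity)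
        _ = _ := by ring
    have f5 : 1 / 10 ^ 6 * (V (N n) * (22 * x) ^ 2) ≤ 1 / 300 * (X ^ 2 * m (N n) ^ 3 * x ^ 2) := by
      have : 1 / 10 ^ 6 * (V (N n) * (22 * x) ^ 2) =
          484 / 10 ^ 6 * (X ^ 2 * m (N n) ^ 3 * x ^ 2) := by rw [V]; ring
      rw [this]
      exact mul_le_mul_of_nonneg_right (by norm_num) (by positivity)
    calc 3 * m (N j) ^ 3 * (979616 * 180 * X ^ 2 * x ^ 3 * m (N n) ^ 2 +
        937024 * 3 * X * x ^ 3 * m (N n) ^ 3 + 1 / 10 ^ 6 * (V (N n) * (22 * x) ^ 2)) ≤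
        3 * m (N j) ^ 3 * (9 / 10 * (X ^ 2 * m (N n) ^ 3 * x ^ 2) +
          1 / 10 * (X ^ 2 * m (N n) ^ 3 * x ^ 2) + 1 / 300 * (X ^ 2 * m (N n) ^ 3 * x ^ 2)) :=
          mul_le_mul_of_nonneg_left (add_le_add (add_le_add f3 f4) f5) (by positivity)
      _ = (3 + 1 / 100) * (V (N n) * V (N j)) := by rw [V, V]; ring
  have hVV : 0 ≤ V (N n) * V (N j) := by positivity
  rw [abs_le] at e3 e4 ⊢
  constructor
  · linarith [e3.1, e3.2, e4.1, e4.2]
  · linarith [e3.1, e3.2, e4.1, e4.2]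

end

end Pool.Agent.Y155.NE
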