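import Pool.Agent.Y155.NE.E2

/-!
# Packets with blobs: the entries `(n, n, n + 1)`, and the zeros
-/

set_option autoImplicit false
set_option linter.unusedSectionVars false

namespace Pool.Agent.Y155.NE

open Pool.Agent.Y5 Pool.Agent.Y5.D Pool.Agent.Y155.ND Finset

section
variable {N : ℕ → ℕ} (hS : Sc N) (γ : ℕ → ℝ)
include hS

theorem tri_zero {i j n : ℕ} (hj : j < n) (hi : i ≠ n) (hc : ¬(i = j ∧ n = j + 1)) :
    tri (bb N γ i) (bb N γ j) (bb N γ n) = 0 := by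
  rw [tri_eq_sum (A := SS (N i) (N (i + 1))) (B := SS (N j) (N (j + 1)))
    (fun k hk => mem_of_bb hk) (fun k hk => mem_of_bb hk)]
  refine sum_eq_zero fun p hp => sum_eq_zero fun q hq => ?_
  have : bb N γ n (p + q) = 0 := by
    by_contra h
    exact no_triad hS hj hi hc hp hq (mem_of_bb h)
  rw [tm, this]; ring

theorem tri_C_eq (n : ℕ) : tri (bb N γ n) (bb N γ n) (bb N γ (n + 1)) =
    γ n * ∑ r ∈ cube (N n) (c3 (N n)), ∑ h ∈ cube (N n) (hh (N n) (N (n + 1))),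
      cr r h * (dt h h - dt r r) := by
  have o1 := hS.one n
  have o2 := hS.two n
  have o3 := hS.one (n + 1)
  have o4 := hS.two (n + 1)
  have g1 := hS.gr n
  set F : Z3 × Z3 → ℝ := fun x => tm (bb N γ n) (bb N γ n) (bb N γ (n + 1)) x.1 x.2 with hF
  set S := SS (N n) (N (n + 1)) with hSd
  set A := cube (N n) (hh (N n) (N (n + 1))) with hA
  set A' := cube (N n) (-hh (N n) (N (n + 1))) with hA'
  set C := cube (N n) (c3 (N n)) with hC
  set C' := cube (N n) (c2 (N n)) with hC'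
  have sA : A ⊆ S := hp_sub _ _
  have sA' : A' ⊆ S := hm_sub _ _
  have sC : C ⊆ S := (c3_sub hS n).trans (Q_sub _ _)
  have sC' : C' ⊆ S := (c2_sub hS n).trans (Q_sub _ _)
  have dAC : ∀ k, k ∈ A → k ∈ C → False := fun k h h' => hp_notMem o1 o2 h (c3_sub hS n h')
  have dA'C : ∀ k, k ∈ A' → k ∈ C → False := fun k h h' => hm_notMem o1 o2 h (c3_sub hS n h')
  have dAC' : ∀ k, k ∈ A → k ∈ C' → False := fun k h h' => hp_notMem o1 o2 h (c2_sub hS n h')
  have dA'C' : ∀ k, k ∈ A' → k ∈ C' → False := fun k h h' => hm_notMem o1 o2 h (c2_sub hS n h')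
  have dAA' : ∀ k, k ∈ A → k ∈ A' → False := fun k h h' => hp_hm o1 o2 h h'
  have dCC' : ∀ k, k ∈ C → k ∈ C' → False := by
    intro k h h'
    rw [hC, mem_c3] at h
    rw [hC', mem_c2] at h'
    omega
  have e1 : ∑ x ∈ S ×ˢ S, F x = ∑ x ∈ (A ×ˢ C ∪ A' ×ˢ C') ∪ (C ×ˢ A ∪ C' ×ˢ A'), F x := by
    symm
    apply sum_subset
    · intro x hx
      simp only [mem_union, mem_product] at hx ⊢
      rcases hx with (h | h) | (h | h)
      · exact ⟨sA h.1, sC h.2⟩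
      · exact ⟨sA' h.1, sC' h.2⟩
      · exact ⟨sC h.1, sA h.2⟩
      · exact ⟨sC' h.1, sA' h.2⟩
    · intro x hx hx'
      rw [mem_product] at hx
      have : bb N γ (n + 1) (x.1 + x.2) = 0 := by
        by_contra h
        apply hx'
        simp only [mem_union, mem_product]
        rcases triad_C hS hx.1 hx.2 (mem_of_bb h) with h | h | h | h
        · exact Or.inl (Or.inl h)
        · exact Or.inl (Or.inr ⟨h.1, (neg_mem_c3 hS).1 h.2⟩)
        · exact Or.inr (Or.inl ⟨h.2, h.1⟩)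
        · exact Or.inr (Or.inr ⟨(neg_mem_c3 hS).1 h.2, h.1⟩)
      rw [hF]
      simp only [tm]
      rw [this]; ring
  have d1 : Disjoint (A ×ˢ C ∪ A' ×ˢ C') (C ×ˢ A ∪ C' ×ˢ A') := by
    rw [disjoint_left]
    rintro ⟨p, q⟩ h h'
    simp only [mem_union, mem_product] at h h'
    rcases h with h | h
    · rcases h' with h' | h'
      · exact dAC _ h.1 h'.1
      · exact dAC' _ h.1 h'.1
    · rcases h' with h' | h'
      · exact dA'C _ h.1 h'.1
      · exact dA'C' _ h.1 h'.1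
  have d2 : Disjoint (A ×ˢ C) (A' ×ˢ C') := by
    rw [disjoint_left]
    rintro ⟨p, q⟩ h h'
    simp only [mem_product] at h h'
    exact dAA' _ h.1 h'.1
  have d3 : Disjoint (C ×ˢ A) (C' ×ˢ A') := by
    rw [disjoint_left]
    rintro ⟨p, q⟩ h h'
    simp only [mem_product] at h h'
    exact dCC' _ h.1 h'.1
  have hsym : ∀ p q, F (-p, -q) = F (p, q) :=
    fun p q => tm_neg (bb_neg _ _ _) (bb_neg _ _ _) (bb_neg _ _ _) p q
  have s1 : ∑ x ∈ A' ×ˢ C', F x = ∑ x ∈ A ×ˢ C, F x := by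
    refine sum_nbij' (fun x => (-x.1, -x.2)) (fun x => (-x.1, -x.2)) ?_ ?_ ?_ ?_ ?_
    · rintro ⟨p, q⟩ h
      simp only [mem_product] at h ⊢
      exact ⟨by rw [hA, mem_neg]; exact h.1, (neg_mem_c3 hS).2 h.2⟩
    · rintro ⟨p, q⟩ h
      simp only [mem_product] at h ⊢
      refine ⟨by rw [hA', mem_neg, neg_neg]; exact h.1, ?_⟩
      rw [hC', ← neg_mem_c3 hS, neg_neg]
      exact h.2
    · rintro ⟨p, q⟩ _
      simp
    · rintro ⟨p, q⟩ _
      simp
    · rintro ⟨p, q⟩ _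
      exact (hsym p q).symm
  have s2 : ∑ x ∈ C' ×ˢ A', F x = ∑ x ∈ C ×ˢ A, F x := by
    refine sum_nbij' (fun x => (-x.1, -x.2)) (fun x => (-x.1, -x.2)) ?_ ?_ ?_ ?_ ?_
    · rintro ⟨p, q⟩ h
      simp only [mem_product] at h ⊢
      exact ⟨(neg_mem_c3 hS).2 h.1, by rw [hA, mem_neg]; exact h.2⟩
    · rintro ⟨p, q⟩ h
      simp only [mem_product] at h ⊢
      refine ⟨?_, by rw [hA', mem_neg, neg_neg]; exact h.2⟩
      rw [hC', ← neg_mem_c3 hS, neg_neg]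
      exact h.1
    · rintro ⟨p, q⟩ _
      simp
    · rintro ⟨p, q⟩ _
      simp
    · rintro ⟨p, q⟩ _
      exact (hsym p q).symm
  -- values
  have hval : ∀ r ∈ C, ∀ h ∈ A, F (h, r) + F (r, h) = γ n / 2 * (cr r h * (dt h h - dt r r)) := by
    intro r hr h hh
    have v1 : bb N γ n r = 1 / 2 := by
      rw [bb, b_eq_g o1 o2 (c3_sub hS n hr)]
      exact ((g_val o1 r).2.2.2 hr).1
    have v2 : bb N γ n h = γ n := b_hp o1 o2 _ hh
    have hin : r + h ∈ cube (N (n + 1)) (c0 (N (n + 1))) := by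
      rw [mem_c0]
      rw [hC, mem_c3] at hr
      rw [hA, mem_hp] at hh
      simp only [Pi.add_apply]
      omega
    have v3 : bb N γ (n + 1) (r + h) = 1 := by
      rw [bb, b_eq_g o3 o4 (mem_Q.2 (Or.inl (Or.inl hin)))]
      exact ((g_val o3 _).1 hin).1
    have v4 : bb N γ (n + 1) (h + r) = 1 := by rw [add_comm h r, v3]
    simp only [hF]
    rw [tm, tm, v1, v2, v3, v4, dt_add_right, dt_add_right, cr_comm h r, dt_comm h r]
    ring
  rw [tri_eq_sum (A := SS (N n) (N (n + 1))) (B := SS (N n) (N (n + 1)))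
    (fun k hk => mem_of_bb hk) (fun k hk => mem_of_bb hk)]
  have e2 : ∑ p ∈ S, ∑ q ∈ S, tm (bb N γ n) (bb N γ n) (bb N γ (n + 1)) p q =
      ∑ x ∈ S ×ˢ S, F x := by rw [sum_product]
  rw [e2, e1, sum_union d1, sum_union d2, sum_union d3, s1, s2]
  have e3 : ∑ x ∈ A ×ˢ C, F x = ∑ r ∈ C, ∑ h ∈ A, F (h, r) := by rw [sum_product, sum_comm]
  have e4 : ∑ x ∈ C ×ˢ A, F x = ∑ r ∈ C, ∑ h ∈ A, F (r, h) := by rw [sum_product]
  have e5 : ∑ x ∈ A ×ˢ C, F x + ∑ x ∈ C ×ˢ A, F x =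
      ∑ r ∈ C, ∑ h ∈ A, γ n / 2 * (cr r h * (dt h h - dt r r)) := by
    rw [e3, e4, ← sum_add_distrib]
    refine sum_congr rfl fun r hr => ?_
    rw [← sum_add_distrib]
    exact sum_congr rfl fun h hh => hval r hr h hh
  have e6 : ∑ x ∈ A ×ˢ C, F x + ∑ x ∈ A ×ˢ C, F x + (∑ x ∈ C ×ˢ A, F x + ∑ x ∈ C ×ˢ A, F x) =
      2 * (∑ x ∈ A ×ˢ C, F x + ∑ x ∈ C ×ˢ A, F x) := by ring
  rw [e6, e5]
  simp only [← mul_sum]
  ring

theorem tri_C_est (n : ℕ) (hγ : 0 ≤ γ n) :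
    γ n * (m (N n) ^ 6 * (120000 * ((N n : ℝ) * (N (n + 1) : ℝ) ^ 3))) ≤
      tri (bb N γ n) (bb N γ n) (bb N γ (n + 1)) ∧
    tri (bb N γ n) (bb N γ n) (bb N γ (n + 1)) ≤
      γ n * (m (N n) ^ 6 * (220000 * ((N n : ℝ) * (N (n + 1) : ℝ) ^ 3))) := by
  have o1 := hS.one n
  have g1 := hS.gr n
  rw [tri_C_eq hS]
  set x : ℝ := (N n : ℝ) with hx
  set y : ℝ := (N (n + 1) : ℝ) with hy
  have hx1 : 1 ≤ x := by rw [hx]; exact_mod_cast o1
  have hxy : 100000000 * x ≤ y := by rw [hx, hy]; exact_mod_cast g1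
  have hb : ∀ r ∈ cube (N n) (c3 (N n)), ∀ h ∈ cube (N n) (hh (N n) (N (n + 1))),
      120000 * (x * y ^ 3) ≤ cr r h * (dt h h - dt r r) ∧
      cr r h * (dt h h - dt r r) ≤ 220000 * (x * y ^ 3) := by
    intro r hr h hh
    rw [mem_c3] at hr
    rw [mem_hp] at hh
    obtain ⟨⟨a1, a2⟩, ⟨a3, a4⟩, -⟩ := hr
    obtain ⟨⟨a5, a6⟩, ⟨a7, a8⟩, -⟩ := hh
    have b1 : -(18 * x) ≤ (r 0 : ℝ) := by rw [hx]; exact_mod_cast a1
    have b2 : (r 0 : ℝ) ≤ -(16 * x) := by rw [hx]; exact_mod_cast a2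
    have b3 : -(18 * x) ≤ (r 1 : ℝ) := by rw [hx]; exact_mod_cast a3
    have b4 : (r 1 : ℝ) ≤ -(16 * x) := by rw [hx]; exact_mod_cast a4
    have b5 : 21 * y - x ≤ (h 0 : ℝ) := by rw [hx, hy]; exact_mod_cast a5
    have b6 : (h 0 : ℝ) ≤ 21 * y + x := by rw [hx, hy]; exact_mod_cast a6
    have b7 : y + 9 * x ≤ (h 1 : ℝ) := by rw [hx, hy]; exact_mod_cast a7
    have b8 : (h 1 : ℝ) ≤ y + 11 * x := by rw [hx, hy]; exact_mod_cast a8
    rw [cr, dt, dt]
    generalize (r 0 : ℝ) = r0, (r 1 : ℝ) = r1, (h 0 : ℝ) = h0, (h 1 : ℝ) = h1 at *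
    have hx0 : 0 ≤ x := by linarith
    have hy0 : 0 ≤ y := by linarith
    have p1 : 16 * x * (21 * y - x) ≤ -r1 * h0 :=
      mul_le_mul (by linarith) b5 (by linarith) (by linarith)
    have p2 : -r0 * h1 ≤ 18 * x * (y + 11 * x) :=
      mul_le_mul (by linarith) b8 (by linarith) (by linarith)
    have p3 : -r1 * h0 ≤ 18 * x * (21 * y + x) :=
      mul_le_mul (by linarith) b6 (by linarith) (by linarith)
    have p4 : 16 * x * (y + 9 * x) ≤ -r0 * h1 :=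
      mul_le_mul (by linarith) b7 (by linarith) (by linarith)
    have q0 : r0 ^ 2 ≤ 324 * x ^ 2 := by nlinarith
    have q1 : r1 ^ 2 ≤ 324 * x ^ 2 := by nlinarith
    have q2 : (21 * y - x) ^ 2 ≤ h0 ^ 2 := pow_le_pow_left₀ (by linarith) b5 2
    have q3 : h0 ^ 2 ≤ (21 * y + x) ^ 2 := pow_le_pow_left₀ (by linarith) b6 2
    have q4 : y ^ 2 ≤ h1 ^ 2 := pow_le_pow_left₀ (by linarith) (by linarith) 2
    have q5 : h1 ^ 2 ≤ (2 * y) ^ 2 := pow_le_pow_left₀ (by linarith) (by linarith) 2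
    have hxx : 100000000 * x ^ 2 ≤ x * y := by nlinarith
    have hxyy : 100000000 * (x * y) ≤ y ^ 2 := by nlinarith
    have d1 : 300 * (x * y) ≤ r0 * h1 - r1 * h0 := by nlinarith
    have d2 : r0 * h1 - r1 * h0 ≤ 400 * (x * y) := by nlinarith
    have d3 : 400 * y ^ 2 ≤ h0 * h0 + h1 * h1 - (r0 * r0 + r1 * r1) := by nlinarith
    have d4 : h0 * h0 + h1 * h1 - (r0 * r0 + r1 * r1) ≤ 550 * y ^ 2 := by
      nlinarith [sq_nonneg r0, sq_nonneg r1]
    constructor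
    · calc 120000 * (x * y ^ 3) = (300 * (x * y)) * (400 * y ^ 2) := by ring
        _ ≤ _ := mul_le_mul d1 d3 (by positivity) (le_trans (by positivity) d1)
    · calc _ ≤ (400 * (x * y)) * (550 * y ^ 2) :=
            mul_le_mul d2 d4 (le_trans (by positivity) d3) (by positivity)
        _ = 220000 * (x * y ^ 3) := by ring
  have card : ∀ c : ℝ, ∑ _r ∈ cube (N n) (c3 (N n)), ∑ _h ∈ cube (N n) (hh (N n) (N (n + 1))), c =
      m (N n) ^ 6 * c := by
    intro c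
    rw [sum_const, sum_const, nsmul_eq_mul, nsmul_eq_mul, card_cube, card_cube]
    ring
  constructor
  · refine mul_le_mul_of_nonneg_left ?_ hγ
    rw [← card]
    exact sum_le_sum fun r hr => sum_le_sum fun h hh => (hb r hr h hh).1
  · refine mul_le_mul_of_nonneg_left ?_ hγ
    rw [← card]
    exact sum_le_sum fun r hr => sum_le_sum fun h hh => (hb r hr h hh).2

end

end Pool.Agent.Y155.NE
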