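import Pool.Agent.Y155.NE.E3
import Pool.Agent.Y155.ND.TAB

/-!
# Packets with blobs: normalisation
-/

set_option autoImplicit false
set_option linter.unusedSectionVars false

namespace Pool.Agent.Y155.NE

open Pool.Agent.Y5 Pool.Agent.Y5.D Pool.Agent.Y155.ND Finset

/-- the scales and the small parameters -/
structure Da (N : ℕ → ℕ) (γ : ℕ → ℝ) : Prop where
  sc : Sc N
  big : ∀ n, 100000000 ≤ N n
  pos : ∀ n, 0 < γ n
  le : ∀ n, γ n * (N (n + 1) : ℝ) ^ 4 ≤ (N n : ℝ) ^ 4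

/-- the square of the norm before the normalisation -/
noncomputable def ZZ (N : ℕ → ℕ) (γ : ℕ → ℝ) (n : ℕ) : ℝ :=
  ∑ k ∈ SS (N n) (N (n + 1)), bb N γ n k ^ 2 * dt k k

/-- the normalising factor -/
noncomputable def cc (N : ℕ → ℕ) (γ : ℕ → ℝ) (n : ℕ) : ℝ := (√(ZZ N γ n))⁻¹

/-- the packets -/
noncomputable def PP (N : ℕ → ℕ) (γ : ℕ → ℝ) (n : ℕ) : Fam := fam (fun k => cc N γ n * bb N γ n k)

section
variable {N : ℕ → ℕ} {γ : ℕ → ℝ} (hD : Da N γ)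
include hD

theorem Da.nr (n : ℕ) : (100000000 : ℝ) ≤ N n := by exact_mod_cast hD.big n

theorem Da.gr (n : ℕ) : 100000000 * (N n : ℝ) ≤ N (n + 1) := by exact_mod_cast hD.sc.gr n

/-- the older setting, for the geometric lemmas -/
theorem Da.old : Dat N (fun n => ((20 * (N (n + 1) : ℝ)) ^ 20)⁻¹) where
  sc := hD.sc
  big := hD.big
  pos n := by
    have := hD.nr (n + 1)
    have h1 : 0 < 20 * (N (n + 1) : ℝ) := by linarith
    exact inv_pos.2 (pow_pos h1 20)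
  le n := by
    have := hD.nr (n + 1)
    have h1 : 0 < 20 * (N (n + 1) : ℝ) := by linarith
    exact le_of_eq (inv_mul_cancel₀ (pow_pos h1 20).ne')

theorem Da.sm2 (n : ℕ) : 10 ^ 16 * (γ n * (N (n + 1) : ℝ) ^ 2) ≤ (N n : ℝ) ^ 2 := by
  have hx := hD.nr n
  have hg := hD.gr n
  have hγ := hD.pos n
  have hl := hD.le n
  generalize (N n : ℝ) = x, (N (n + 1) : ℝ) = y, γ n = g at *
  have hx0 : 0 < x := by linarith
  have h1 : 10 ^ 16 * x ^ 2 ≤ y ^ 2 := by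
    calc 10 ^ 16 * x ^ 2 = (100000000 * x) ^ 2 := by ring
      _ ≤ y ^ 2 := pow_le_pow_left₀ (by positivity) hg 2
  have h2 : (10 ^ 16 * (g * y ^ 2)) * x ^ 2 ≤ x ^ 2 * x ^ 2 := by
    calc (10 ^ 16 * (g * y ^ 2)) * x ^ 2 = g * y ^ 2 * (10 ^ 16 * x ^ 2) := by ring
      _ ≤ g * y ^ 2 * y ^ 2 := mul_le_mul_of_nonneg_left h1 (by positivity)
      _ = g * y ^ 4 := by ring
      _ ≤ x ^ 4 := hl
      _ = x ^ 2 * x ^ 2 := by ring
  exact le_of_mul_le_mul_right h2 (by positivity)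

theorem Da.sm1 (n : ℕ) : 10 ^ 24 * (γ n * (N (n + 1) : ℝ)) ≤ N n := by
  have hx := hD.nr n
  have hg := hD.gr n
  have hγ := hD.pos n
  have hl := hD.le n
  generalize (N n : ℝ) = x, (N (n + 1) : ℝ) = y, γ n = g at *
  have hx0 : 0 < x := by linarith
  have hy0 : 0 < y := by linarith
  have h1 : 10 ^ 24 * x ^ 3 ≤ y ^ 3 := by
    calc 10 ^ 24 * x ^ 3 = (100000000 * x) ^ 3 := by ring
      _ ≤ y ^ 3 := pow_le_pow_left₀ (by positivity) hg 3
  have h2 : (10 ^ 24 * (g * y)) * x ^ 3 ≤ x * x ^ 3 := by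
    calc (10 ^ 24 * (g * y)) * x ^ 3 = g * y * (10 ^ 24 * x ^ 3) := by ring
      _ ≤ g * y * y ^ 3 := mul_le_mul_of_nonneg_left h1 (by positivity)
      _ = g * y ^ 4 := by ring
      _ ≤ x ^ 4 := hl
      _ = x * x ^ 3 := by ring
  exact le_of_mul_le_mul_right h2 (by positivity)

theorem Da.sm0 (n : ℕ) : 10 ^ 24 * γ n ≤ 1 := by
  have hx := hD.nr n
  have hg := hD.gr n
  have hγ := hD.pos n
  have hl := hD.sm1 n
  generalize (N n : ℝ) = x, (N (n + 1) : ℝ) = y, γ n = g at *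
  have hx0 : 0 < x := by linarith
  have h2 : (10 ^ 24 * g) * x ≤ 1 * x := by
    calc (10 ^ 24 * g) * x ≤ (10 ^ 24 * g) * y := mul_le_mul_of_nonneg_left (by linarith) (by positivity)
      _ = 10 ^ 24 * (g * y) := by ring
      _ ≤ x := hl
      _ = 1 * x := by ring
  exact le_of_mul_le_mul_right h2 (by positivity)

theorem Da.sm5 (n : ℕ) : 10 ^ 24 * (γ n ^ 2 * (N (n + 1) : ℝ) ^ 5) ≤ (N n : ℝ) ^ 5 := by
  have hx := hD.nr n
  have hg := hD.gr n
  have hγ := hD.pos n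
  have hl := hD.le n
  generalize (N n : ℝ) = x, (N (n + 1) : ℝ) = y, γ n = g at *
  have hx0 : 0 < x := by linarith
  have hy0 : 0 < y := by linarith
  have h1 : 10 ^ 24 * x ^ 3 ≤ y ^ 3 := by
    calc 10 ^ 24 * x ^ 3 = (100000000 * x) ^ 3 := by ring
      _ ≤ y ^ 3 := pow_le_pow_left₀ (by positivity) hg 3
  have h2 : (10 ^ 24 * (g ^ 2 * y ^ 5)) * x ^ 3 ≤ x ^ 5 * x ^ 3 := by
    calc (10 ^ 24 * (g ^ 2 * y ^ 5)) * x ^ 3 = g ^ 2 * y ^ 5 * (10 ^ 24 * x ^ 3) := by ring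
      _ ≤ g ^ 2 * y ^ 5 * y ^ 3 := mul_le_mul_of_nonneg_left h1 (by positivity)
      _ = (g * y ^ 4) ^ 2 := by ring
      _ ≤ (x ^ 4) ^ 2 := pow_le_pow_left₀ (by positivity) hl 2
      _ = x ^ 5 * x ^ 3 := by ring
  exact le_of_mul_le_mul_right h2 (by positivity)

theorem gr11 (n : ℕ) : 11 * N n ≤ N (n + 1) := by
  have := hD.sc.gr n
  omega

theorem dt_nonneg (k : Z3) : 0 ≤ dt k k := by
  rw [dt]
  exact add_nonneg (mul_self_nonneg _) (mul_self_nonneg _)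

/-- the norm of the small part -/
theorem sum_hp_dt (n : ℕ) : 0 ≤ ∑ k ∈ cube (N n) (hh (N n) (N (n + 1))), dt k k +
      ∑ k ∈ cube (N n) (-hh (N n) (N (n + 1))), dt k k ∧
    ∑ k ∈ cube (N n) (hh (N n) (N (n + 1))), dt k k +
      ∑ k ∈ cube (N n) (-hh (N n) (N (n + 1))), dt k k ≤
      1936 * (m (N n) ^ 3 * (N (n + 1) : ℝ) ^ 2) := by
  constructor
  · exact add_nonneg (sum_nonneg fun k _ => dt_nonneg hD k) (sum_nonneg fun k _ => dt_nonneg hD k)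
  · have key : ∀ k : Z3, |(k 0 : ℝ)| ≤ 22 * (N (n + 1) : ℝ) → |(k 1 : ℝ)| ≤ 22 * (N (n + 1) : ℝ) →
        dt k k ≤ 968 * (N (n + 1) : ℝ) ^ 2 := by
      intro k h0 h1
      have := abs_dt_le (p := k) (q := k) (by positivity) h0 h1 h0 h1
      have := le_abs_self (dt k k)
      nlinarith
    have a1 : ∑ k ∈ cube (N n) (hh (N n) (N (n + 1))), dt k k ≤
        m (N n) ^ 3 * (968 * (N (n + 1) : ℝ) ^ 2) := by
      refine (sum_le_card_nsmul _ _ (968 * (N (n + 1) : ℝ) ^ 2) fun q hq => ?_).trans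
        (le_of_eq (by rw [nsmul_eq_mul, card_cube]))
      have := hp_abs (gr11 hD n) hq
      exact key q this.1 this.2
    have a2 : ∑ k ∈ cube (N n) (-hh (N n) (N (n + 1))), dt k k ≤
        m (N n) ^ 3 * (968 * (N (n + 1) : ℝ) ^ 2) := by
      refine (sum_le_card_nsmul _ _ (968 * (N (n + 1) : ℝ) ^ 2) fun q hq => ?_).trans
        (le_of_eq (by rw [nsmul_eq_mul, card_cube]))
      have := hm_abs (gr11 hD n) hq
      exact key q this.1 this.2
    linarith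

theorem ZZ_eq (n : ℕ) : ZZ N γ n = 3518 / 3 * V (N n) + 5 / 3 * N n * m (N n) ^ 3 +
    γ n ^ 2 * (∑ k ∈ cube (N n) (hh (N n) (N (n + 1))), dt k k +
      ∑ k ∈ cube (N n) (-hh (N n) (N (n + 1))), dt k k) := by
  rw [ZZ, bb, sum_b_sq (hD.sc.one n) (hD.sc.two n), sum_gsq_nrm (hD.sc.one n) (Subset.refl _)]

theorem V_pos (n : ℕ) : 0 < V (N n) := lt_of_lt_of_le one_pos (V_one (hD.sc.one n))

/-- the small part is small -/
theorem small_hi (n : ℕ) : γ n ^ 2 * (∑ k ∈ cube (N n) (hh (N n) (N (n + 1))), dt k k +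
      ∑ k ∈ cube (N n) (-hh (N n) (N (n + 1))), dt k k) ≤ 1 / 10 ^ 40 * V (N n) := by
  obtain ⟨-, h2⟩ := sum_hp_dt hD n
  have h3 := hD.sm1 n
  have h4 := (hD.pos n).le
  have hm := m_pos (N n)
  have h5 : (10 ^ 24 * (γ n * (N (n + 1) : ℝ))) ^ 2 ≤ (N n : ℝ) ^ 2 :=
    pow_le_pow_left₀ (by positivity) h3 2
  calc _ ≤ γ n ^ 2 * (1936 * (m (N n) ^ 3 * (N (n + 1) : ℝ) ^ 2)) :=
        mul_le_mul_of_nonneg_left h2 (by positivity)
    _ = 1936 / 10 ^ 48 * ((10 ^ 24 * (γ n * (N (n + 1) : ℝ))) ^ 2 * m (N n) ^ 3) := by ring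
    _ ≤ 1936 / 10 ^ 48 * ((N n : ℝ) ^ 2 * m (N n) ^ 3) :=
        mul_le_mul_of_nonneg_left (mul_le_mul_of_nonneg_right h5 (by positivity)) (by norm_num)
    _ ≤ 1 / 10 ^ 40 * ((N n : ℝ) ^ 2 * m (N n) ^ 3) :=
        mul_le_mul_of_nonneg_right (by norm_num) (by positivity)
    _ = _ := by rw [V]

theorem ZZ_lo (n : ℕ) : 3518 / 3 * V (N n) ≤ ZZ N γ n := by
  rw [ZZ_eq hD]
  have := m_pos (N n)
  have h1 : 0 ≤ 5 / 3 * N n * m (N n) ^ 3 := by positivity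
  have h2 := mul_nonneg (sq_nonneg (γ n)) (sum_hp_dt hD n).1
  linarith

theorem ZZ_hi (n : ℕ) : ZZ N γ n ≤ (3518 / 3 + 1 / 1000) * V (N n) := by
  rw [ZZ_eq hD]
  have hm := m_pos (N n)
  have hn := hD.nr n
  have h1 : 5 / 3 * N n * m (N n) ^ 3 ≤ 1 / 2000 * V (N n) := by
    rw [V]
    have : 5 / 3 * (N n : ℝ) ≤ 1 / 2000 * (N n : ℝ) ^ 2 := by nlinarith
    calc 5 / 3 * N n * m (N n) ^ 3 ≤ (1 / 2000 * (N n : ℝ) ^ 2) * m (N n) ^ 3 :=
          mul_le_mul_of_nonneg_right this (by positivity)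
      _ = _ := by ring
  have h2 := small_hi hD n
  have hV := V_pos hD n
  have h3 : 1 / 10 ^ 40 * V (N n) ≤ 1 / 2000 * V (N n) :=
    mul_le_mul_of_nonneg_right (by norm_num) hV.le
  linarith

theorem ZZ_pos (n : ℕ) : 0 < ZZ N γ n := by
  have := ZZ_lo hD n
  have := V_pos hD n
  linarith

theorem cc_pos (n : ℕ) : 0 < cc N γ n := by
  unfold cc
  have := ZZ_pos hD n
  positivity

theorem cc_sq (n : ℕ) : cc N γ n ^ 2 = (ZZ N γ n)⁻¹ := by
  rw [cc, inv_pow, Real.sq_sqrt (ZZ_pos hD n).le]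

theorem cc_le_one (n : ℕ) : cc N γ n ≤ 1 := by
  have h1 : cc N γ n ^ 2 ≤ 1 := by
    rw [cc_sq hD]
    apply inv_le_one_of_one_le₀
    have := ZZ_lo hD n
    have := V_one (hD.sc.one n)
    linarith
  have h2 := cc_pos hD n
  nlinarith

/-! ### the interactions -/

theorem bil_PP (i j n : ℕ) : bil (PP N γ i) (PP N γ j) (PP N γ n) =
    2 * Real.pi * (cc N γ i * cc N γ j * cc N γ n * tri (bb N γ i) (bb N γ j) (bb N γ n)) := by
  rw [PP, PP, PP, bil_fam, tri_smul]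

theorem bil_PP_anti (i j n : ℕ) : bil (PP N γ i) (PP N γ j) (PP N γ n) =
    -bil (PP N γ i) (PP N γ n) (PP N γ j) := by
  rw [bil_PP hD, bil_PP hD, tri_anti (bb_neg _ _ _)]
  ring

theorem bil_PP_zero {i j n : ℕ} (hj : j < n) (hi : i ≠ n) (hc : ¬(i = j ∧ n = j + 1)) :
    bil (PP N γ i) (PP N γ j) (PP N γ n) = 0 := by
  rw [bil_PP hD, tri_zero hD.sc γ hj hi hc]
  ring

theorem bil_PP_diag (i j : ℕ) : bil (PP N γ i) (PP N γ j) (PP N γ j) = 0 := by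
  have := bil_PP_anti hD i j j
  linarith

/-! ### the coefficients of the table -/

/-- the quotient with the main size -/
noncomputable def BB (N : ℕ → ℕ) (γ : ℕ → ℝ) (j n : ℕ) : ℝ :=
  cc N γ n ^ 2 * cc N γ j * tri (bb N γ n) (bb N γ j) (bb N γ n) / (127449 * sr (N j))

theorem u_bd (n : ℕ) : 9999 / 10000 * kap ≤ cc N γ n ^ 2 * V (N n) ∧
    cc N γ n ^ 2 * V (N n) ≤ kap := by
  have h1 := ZZ_lo hD n
  have h2 := ZZ_hi hD n
  have h3 := ZZ_pos hD n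
  have h4 := V_pos hD n
  rw [cc_sq hD, inv_mul_eq_div, le_div_iff₀ h3, div_le_iff₀ h3]
  unfold kap
  constructor <;> nlinarith

theorem v_bd (j : ℕ) : 9998 / 10000 ≤ cc N γ j * V (N j) * kap / sr (N j) ∧
    cc N γ j * V (N j) * kap / sr (N j) ≤ 10002 / 10000 := by
  have hs := sr_pos (hD.sc.one j)
  have hc := cc_pos hD j
  have hV := V_pos hD j
  have hk := kap_pos
  set t := cc N γ j * V (N j) * kap / sr (N j) with ht
  have ht0 : 0 < t := by positivity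
  have hx : (0 : ℝ) < N j := by have := hD.nr j; linarith
  have e : t ^ 2 = (cc N γ j ^ 2 * V (N j)) / kap * (V (N j) / (8 * (N j : ℝ) ^ 5)) := by
    rw [ht, div_pow, sr_sq]
    field_simp
  obtain ⟨u1, u2⟩ := u_bd hD j
  obtain ⟨w1, w2⟩ := w_bd hD.old j
  have a1 : 9999 / 10000 ≤ (cc N γ j ^ 2 * V (N j)) / kap := by
    rw [le_div_iff₀ hk]; exact u1
  have a2 : (cc N γ j ^ 2 * V (N j)) / kap ≤ 1 := by
    rw [div_le_iff₀ hk, one_mul]; exact u2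
  have a3 : 1 ≤ V (N j) / (8 * (N j : ℝ) ^ 5) := by
    rw [le_div_iff₀ (by positivity), one_mul]; exact w1
  have a4 : V (N j) / (8 * (N j : ℝ) ^ 5) ≤ 10001 / 10000 := by
    rw [div_le_iff₀ (by positivity)]; exact w2
  have t1 : 9999 / 10000 ≤ t ^ 2 := by rw [e]; nlinarith
  have t2 : t ^ 2 ≤ 10001 / 10000 := by rw [e]; nlinarith
  constructor <;> nlinarith

theorem BB_bd {j n : ℕ} (hj : j < n) : 999 / 1000 ≤ BB N γ j n ∧ BB N γ j n ≤ 1001 / 1000 := by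
  have hs := sr_pos (hD.sc.one j)
  have hVn := V_pos hD n
  have hVj := V_pos hD j
  have hk := kap_pos
  have hest := tri_B_est hD.sc γ hj (hD.pos j).le (hD.pos n).le (by
    have h1 := hD.sm2 j
    have h2 : 0 ≤ γ j * (N (j + 1) : ℝ) ^ 2 := mul_nonneg (hD.pos j).le (sq_nonneg _)
    linarith) (by
    have h1 := hD.sm1 n
    have h2 : 0 ≤ γ n * (N (n + 1) : ℝ) := mul_nonneg (hD.pos n).le (Nat.cast_nonneg _)
    linarith)
  set T := tri (bb N γ n) (bb N γ j) (bb N γ n) with hT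
  have e : BB N γ j n = (cc N γ n ^ 2 * V (N n) / kap) * (cc N γ j * V (N j) * kap / sr (N j)) *
      (T / (127449 * (V (N n) * V (N j)))) := by
    rw [BB, ← hT]
    field_simp
  obtain ⟨u1, u2⟩ := u_bd hD n
  obtain ⟨v1, v2⟩ := v_bd hD j
  have a1 : 9999 / 10000 ≤ (cc N γ n ^ 2 * V (N n)) / kap := by
    rw [le_div_iff₀ hk]; exact u1
  have a2 : (cc N γ n ^ 2 * V (N n)) / kap ≤ 1 := by
    rw [div_le_iff₀ hk, one_mul]; exact u2
  rw [abs_le] at hest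
  have a3 : 9999 / 10000 ≤ T / (127449 * (V (N n) * V (N j))) := by
    rw [le_div_iff₀ (by positivity)]
    have : 0 < V (N n) * V (N j) := by positivity
    linarith [hest.1]
  have a4 : T / (127449 * (V (N n) * V (N j))) ≤ 10001 / 10000 := by
    rw [div_le_iff₀ (by positivity)]
    have : 0 < V (N n) * V (N j) := by positivity
    linarith [hest.2]
  set A := (cc N γ n ^ 2 * V (N n)) / kap
  set B := cc N γ j * V (N j) * kap / sr (N j)
  set C := T / (127449 * (V (N n) * V (N j)))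
  rw [e]
  have b1 : 9996 / 10000 ≤ A * B := by nlinarith
  have b2 : A * B ≤ 10002 / 10000 := by nlinarith
  constructor <;> nlinarith

/-- the coefficient of the transfer -/
noncomputable def CC (N : ℕ → ℕ) (γ : ℕ → ℝ) (n : ℕ) : ℝ :=
  cc N γ n ^ 2 * cc N γ (n + 1) * tri (bb N γ n) (bb N γ n) (bb N γ (n + 1)) /
    (127449 * sr (N n))

end

end Pool.Agent.Y155.NE
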