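import Pool.Agent.Y155.NE.E4

/-!
# Packets with blobs: the size of the transfer coefficients
-/

set_option autoImplicit false
set_option linter.unusedSectionVars false

namespace Pool.Agent.Y155.NE

open Pool.Agent.Y5 Pool.Agent.Y5.D Pool.Agent.Y155.ND Finset

section
variable {N : ℕ → ℕ} {γ : ℕ → ℝ} (hD : Da N γ)
include hD

theorem m3_bd (n : ℕ) : 8 * (N n : ℝ) ^ 3 ≤ m (N n) ^ 3 ∧ m (N n) ^ 3 ≤ 27 * (N n : ℝ) ^ 3 := by
  have hx := hD.nr n
  have hm : m (N n) = 2 * (N n : ℝ) + 1 := rfl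
  rw [hm]
  generalize (N n : ℝ) = x at *
  constructor
  · calc 8 * x ^ 3 = (2 * x) ^ 3 := by ring
      _ ≤ _ := pow_le_pow_left₀ (by linarith) (by linarith) 3
  · calc _ ≤ (3 * x) ^ 3 := pow_le_pow_left₀ (by linarith) (by linarith) 3
      _ = _ := by ring

/-- bounds of `cc² T` -/
theorem ccT (n : ℕ) : kap * (γ n * (950000 * ((N n : ℝ) ^ 2 * (N (n + 1) : ℝ) ^ 3))) ≤
      cc N γ n ^ 2 * tri (bb N γ n) (bb N γ n) (bb N γ (n + 1)) ∧
    cc N γ n ^ 2 * tri (bb N γ n) (bb N γ n) (bb N γ (n + 1)) ≤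
      kap * (γ n * (6000000 * ((N n : ℝ) ^ 2 * (N (n + 1) : ℝ) ^ 3))) := by
  have hγ := hD.pos n
  obtain ⟨T1, T2⟩ := tri_C_est hD.sc γ n hγ.le
  obtain ⟨u1, u2⟩ := u_bd hD n
  obtain ⟨m1, m2⟩ := m3_bd hD n
  have hx := hD.nr n
  have hy := hD.nr (n + 1)
  have hk := kap_pos
  have hV : V (N n) = (N n : ℝ) ^ 2 * m (N n) ^ 3 := rfl
  have hm := m_pos (N n)
  have hc : 0 ≤ cc N γ n ^ 2 := sq_nonneg _
  rw [hV] at u1 u2
  have e6 : m (N n) ^ 6 = m (N n) ^ 3 * m (N n) ^ 3 := by ring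
  rw [e6] at T1 T2
  have hm3 : 0 < m (N n) ^ 3 := by positivity
  generalize tri (bb N γ n) (bb N γ n) (bb N γ (n + 1)) = T at *
  generalize (N n : ℝ) = x, (N (n + 1) : ℝ) = y, γ n = g, cc N γ n ^ 2 = c, m (N n) ^ 3 = M at *
  have hx0 : 0 < x := by linarith
  have hy0 : 0 < y := by linarith
  constructor
  · have h1 : c * (g * (M * M * (120000 * (x * y ^ 3)))) ≤ c * T := mul_le_mul_of_nonneg_left T1 hc
    refine le_trans ?_ h1
    -- multiply by `x`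
    refine le_of_mul_le_mul_right ?_ hx0
    calc kap * (g * (950000 * (x ^ 2 * y ^ 3))) * x = (kap * (g * (118750 * y ^ 3))) * (8 * x ^ 3) := by
          ring
      _ ≤ (kap * (g * (118750 * y ^ 3))) * M := mul_le_mul_of_nonneg_left m1 (by positivity)
      _ ≤ (9999 / 10000 * kap) * (g * (120000 * y ^ 3 * M)) := by
          have : 0 ≤ kap * (g * (y ^ 3 * M)) := by positivity
          linarith
      _ ≤ (c * (x ^ 2 * M)) * (g * (120000 * y ^ 3 * M)) :=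
          mul_le_mul_of_nonneg_right u1 (by positivity)
      _ = c * (g * (M * M * (120000 * (x * y ^ 3)))) * x := by ring
  · have h1 : c * T ≤ c * (g * (M * M * (220000 * (x * y ^ 3)))) := mul_le_mul_of_nonneg_left T2 hc
    refine h1.trans ?_
    refine le_of_mul_le_mul_right ?_ hx0
    calc c * (g * (M * M * (220000 * (x * y ^ 3)))) * x =
          (c * (x ^ 2 * M)) * (g * (220000 * y ^ 3 * M)) := by ring
      _ ≤ kap * (g * (220000 * y ^ 3 * M)) := mul_le_mul_of_nonneg_right u2 (by positivity)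
      _ = (kap * (g * (220000 * y ^ 3))) * M := by ring
      _ ≤ (kap * (g * (220000 * y ^ 3))) * (27 * x ^ 3) :=
          mul_le_mul_of_nonneg_left m2 (by positivity)
      _ ≤ kap * (g * (6000000 * y ^ 3 * x ^ 3)) := by
          have : 0 ≤ kap * (g * (y ^ 3 * x ^ 3)) := by positivity
          linarith
      _ = kap * (g * (6000000 * (x ^ 2 * y ^ 3))) * x := by ring

/-- bounds of the next normalising factor -/
theorem cc'_bd (n : ℕ) : kap ≤ cc N γ n ^ 2 * (9 * (N n : ℝ) ^ 5) ∧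
    cc N γ n ^ 2 * (8 * (N n : ℝ) ^ 5) ≤ kap := by
  obtain ⟨u1, u2⟩ := u_bd hD n
  obtain ⟨w1, w2⟩ := w_bd hD.old n
  have hc : 0 < cc N γ n ^ 2 := by have := cc_pos hD n; positivity
  have hk := kap_pos
  constructor
  · have h1 : cc N γ n ^ 2 * V (N n) ≤ cc N γ n ^ 2 * (10001 / 10000 * (8 * (N n : ℝ) ^ 5)) :=
      mul_le_mul_of_nonneg_left w2 hc.le
    have h2 : 0 ≤ cc N γ n ^ 2 * (N n : ℝ) ^ 5 := by positivity
    nlinarith
  · have h1 : cc N γ n ^ 2 * (8 * (N n : ℝ) ^ 5) ≤ cc N γ n ^ 2 * V (N n) :=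
      mul_le_mul_of_nonneg_left w1 hc.le
    linarith

theorem CC_sq (n : ℕ) : CC N γ n ^ 2 * (127449 ^ 2 * (8 * kap ^ 3 * (N n : ℝ) ^ 5)) =
    (cc N γ n ^ 2 * tri (bb N γ n) (bb N γ n) (bb N γ (n + 1))) ^ 2 * cc N γ (n + 1) ^ 2 := by
  have hs := sr_pos (hD.sc.one n)
  rw [← sr_sq, CC, div_pow]
  field_simp

theorem CC_pos (n : ℕ) : 0 < CC N γ n := by
  have hs := sr_pos (hD.sc.one n)
  have h1 := cc_pos hD n
  have h2 := cc_pos hD (n + 1)
  have hγ := hD.pos n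
  have hx := hD.nr n
  have hy := hD.nr (n + 1)
  have hm := m_pos (N n)
  have h3 : 0 < tri (bb N γ n) (bb N γ n) (bb N γ (n + 1)) := by
    refine lt_of_lt_of_le ?_ (tri_C_est hD.sc γ n hγ.le).1
    have hx0 : (0 : ℝ) < N n := by linarith
    have hy0 : (0 : ℝ) < N (n + 1) := by linarith
    exact mul_pos hγ (mul_pos (pow_pos hm 6) (mul_pos (by norm_num) (mul_pos hx0 (pow_pos hy0 3))))
  exact div_pos (mul_pos (mul_pos (pow_pos h1 2) h2) h3) (mul_pos (by norm_num) hs)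

theorem CC_lo (n : ℕ) : γ n ≤ CC N γ n := by
  have hC := CC_pos hD n
  have hsq := CC_sq hD n
  obtain ⟨a1, a2⟩ := ccT hD n
  obtain ⟨c1, c2⟩ := cc'_bd hD (n + 1)
  have hc : 0 ≤ cc N γ (n + 1) ^ 2 := sq_nonneg _
  have hγ := hD.pos n
  have hx := hD.nr n
  have hg := hD.gr n
  have hk := kap_pos
  generalize CC N γ n = C, cc N γ n ^ 2 * tri (bb N γ n) (bb N γ n) (bb N γ (n + 1)) = A,
    cc N γ (n + 1) ^ 2 = c, (N n : ℝ) = x, (N (n + 1) : ℝ) = y, γ n = g at *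
  have hx0 : 0 < x := by linarith
  have hy0 : 0 < y := by linarith
  refine le_of_sq_le_sq ?_ hC.le
  refine le_of_mul_le_mul_right ?_ (by positivity : 0 < 127449 ^ 2 * (8 * kap ^ 3 * x ^ 5))
  rw [hsq]
  have h1 : (kap * (g * (950000 * (x ^ 2 * y ^ 3)))) ^ 2 ≤ A ^ 2 :=
    pow_le_pow_left₀ (by positivity) a1 2
  refine le_trans ?_ (mul_le_mul_of_nonneg_right h1 hc)
  calc g ^ 2 * (127449 ^ 2 * (8 * kap ^ 3 * x ^ 5)) =
        (kap ^ 3 * (g ^ 2 * x ^ 4)) * (129945980808 * x) := by ring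
    _ ≤ (kap ^ 3 * (g ^ 2 * x ^ 4)) * (100000000000 * y) :=
        mul_le_mul_of_nonneg_left (by linarith) (by positivity)
    _ = (kap ^ 2 * (g ^ 2 * (x ^ 4 * (100000000000 * y)))) * kap := by ring
    _ ≤ (kap ^ 2 * (g ^ 2 * (x ^ 4 * (100000000000 * y)))) * (c * (9 * y ^ 5)) :=
        mul_le_mul_of_nonneg_left c1 (by positivity)
    _ = 900000000000 * (kap ^ 2 * g ^ 2 * x ^ 4 * y ^ 6 * c) := by ring
    _ ≤ 902500000000 * (kap ^ 2 * g ^ 2 * x ^ 4 * y ^ 6 * c) :=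
        mul_le_mul_of_nonneg_right (by norm_num) (by positivity)
    _ = (kap * (g * (950000 * (x ^ 2 * y ^ 3)))) ^ 2 * c := by ring

theorem CC_hi (n : ℕ) : CC N γ n * N n ≤ γ n * N (n + 1) := by
  have hC := CC_pos hD n
  have hsq := CC_sq hD n
  obtain ⟨a1, a2⟩ := ccT hD n
  obtain ⟨c1, c2⟩ := cc'_bd hD (n + 1)
  have hc : 0 ≤ cc N γ (n + 1) ^ 2 := sq_nonneg _
  have hγ := hD.pos n
  have hx := hD.nr n
  have hg := hD.gr n
  have hk := kap_pos
  generalize CC N γ n = C, cc N γ n ^ 2 * tri (bb N γ n) (bb N γ n) (bb N γ (n + 1)) = A,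
    cc N γ (n + 1) ^ 2 = c, (N n : ℝ) = x, (N (n + 1) : ℝ) = y, γ n = g at *
  have hx0 : 0 < x := by linarith
  have hy0 : 0 < y := by linarith
  have hA : 0 ≤ A := le_trans (by positivity) a1
  refine le_of_sq_le_sq ?_ (by positivity)
  refine le_of_mul_le_mul_right ?_ (by positivity : 0 < 127449 ^ 2 * (8 * kap ^ 3 * x ^ 5))
  have e : (C * x) ^ 2 * (127449 ^ 2 * (8 * kap ^ 3 * x ^ 5)) = (A ^ 2 * c) * x ^ 2 := by
    rw [← hsq]; ring
  rw [e]
  have h1 : A ^ 2 ≤ (kap * (g * (6000000 * (x ^ 2 * y ^ 3)))) ^ 2 :=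
    pow_le_pow_left₀ hA a2 2
  calc (A ^ 2 * c) * x ^ 2 ≤ ((kap * (g * (6000000 * (x ^ 2 * y ^ 3)))) ^ 2 * c) * x ^ 2 :=
        mul_le_mul_of_nonneg_right (mul_le_mul_of_nonneg_right h1 hc) (sq_nonneg _)
    _ = 4500000000000 * (kap ^ 2 * g ^ 2 * x ^ 6 * y) * (c * (8 * y ^ 5)) := by ring
    _ ≤ 4500000000000 * (kap ^ 2 * g ^ 2 * x ^ 6 * y) * kap :=
        mul_le_mul_of_nonneg_left c2 (by positivity)
    _ = (kap ^ 3 * g ^ 2 * x ^ 5 * y) * (4500000000000 * x) := by ring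
    _ ≤ (kap ^ 3 * g ^ 2 * x ^ 5 * y) * (129945980808 * y) :=
        mul_le_mul_of_nonneg_left (by linarith) (by positivity)
    _ = (g * y) ^ 2 * (127449 ^ 2 * (8 * kap ^ 3 * x ^ 5)) := by ring

end

end Pool.Agent.Y155.NE
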