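import Pool.Agent.Y155.NE.E5

/-!
# Packets with blobs: geometry
-/

set_option autoImplicit false
set_option linter.unusedSectionVars false

namespace Pool.Agent.Y155.NE

open Pool.Agent.Y5 Pool.Agent.Y5.D Pool.Agent.Y155.ND Finset

theorem rpow_bd {t a r s : ℝ} (ht : 0 ≤ t) (ha : 0 ≤ a) (hr : 1 ≤ r) (h : t ≤ r * a) (hs : 0 ≤ s)
    (hs3 : s ≤ 3) : t ^ s ≤ r ^ 3 * a ^ s := by
  have h1 : t ^ s ≤ (r * a) ^ s := Real.rpow_le_rpow ht h hs
  rw [Real.mul_rpow (by linarith) ha] at h1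
  have h2 : r ^ s ≤ r ^ (3 : ℝ) := Real.rpow_le_rpow_of_exponent_le hr hs3
  have h3 : r ^ (3 : ℝ) = r ^ 3 := by
    rw [← Real.rpow_natCast]; norm_num
  rw [h3] at h2
  exact h1.trans (mul_le_mul_of_nonneg_right h2 (Real.rpow_nonneg ha s))

section
variable {N : ℕ → ℕ} {γ : ℕ → ℝ} (hD : Da N γ)
include hD

theorem mem_of_PP {n : ℕ} {k : Z3} (h : PP N γ n k ≠ 0) : k ∈ SS (N n) (N (n + 1)) := by
  by_contra h1
  apply h
  have : bb N γ n k = 0 := by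
    by_contra h2
    exact h1 (mem_of_bb h2)
  rw [PP, fam, this, mul_zero, neg_zero, zero_smul]

theorem tsum_PP (n : ℕ) (f : Z3 → ℝ) (hf : ∀ k, PP N γ n k = 0 → f k = 0) :
    ∑' k, f k = ∑ k ∈ SS (N n) (N (n + 1)), f k := by
  apply tsum_eq_sum
  intro k hk
  apply hf
  by_contra h
  exact hk (mem_of_PP hD h)

theorem norm_PP_sq (n : ℕ) (k : Z3) : ‖PP N γ n k‖ ^ 2 = cc N γ n ^ 2 * (bb N γ n k ^ 2 * dt k k) := by
  rw [PP, fam, norm_smul, mul_pow, norm_perp_sq, Real.norm_eq_abs, sq_abs]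
  ring

theorem norm1 (n : ℕ) : pair (PP N γ n) (PP N γ n) = 1 := by
  rw [pair]
  have e : ∀ k, inner ℝ (PP N γ n k) (PP N γ n k) = cc N γ n ^ 2 * (bb N γ n k ^ 2 * dt k k) := by
    intro k
    rw [real_inner_self_eq_norm_sq, norm_PP_sq hD]
  rw [tsum_PP hD n _ (fun k hk => by rw [hk]; simp)]
  simp only [e]
  rw [← mul_sum, cc_sq hD, ← ZZ, inv_mul_cancel₀ (ZZ_pos hD n).ne']

/-- norms on the small part -/
theorem norm_H {n : ℕ} {k : Z3} (h : k ∈ cube (N n) (hh (N n) (N (n + 1))) ∨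
    k ∈ cube (N n) (-hh (N n) (N (n + 1)))) : 20 * (N (n + 1) : ℝ) ≤ ‖vec k‖ ∧
    ‖vec k‖ ≤ 26 * N (n + 1) := by
  have hg := hD.sc.gr n
  have o1 := hD.sc.one n
  have hb : (20 * (N (n + 1) : ℤ) ≤ k 0 ∨ k 0 ≤ -(20 * N (n + 1))) ∧
      (-(22 * (N (n + 1) : ℤ)) ≤ k 0 ∧ k 0 ≤ 22 * N (n + 1)) ∧
      (-(2 * (N (n + 1) : ℤ)) ≤ k 1 ∧ k 1 ≤ 2 * N (n + 1)) ∧
      (-((N (n + 1) : ℤ)) ≤ k 2 ∧ k 2 ≤ N (n + 1)) := by
    rcases h with h | h
    · rw [mem_hp] at h; omega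
    · rw [mem_hm] at h; omega
  obtain ⟨a0, ⟨a1, a2⟩, ⟨a3, a4⟩, ⟨a5, a6⟩⟩ := hb
  have hy := hD.nr (n + 1)
  set y : ℝ := (N (n + 1) : ℝ) with hyd
  have b0 : 20 * y ≤ (k 0 : ℝ) ∨ (k 0 : ℝ) ≤ -(20 * y) := by
    rcases a0 with a0 | a0
    · left; rw [hyd]; exact_mod_cast a0
    · right; rw [hyd]; exact_mod_cast a0
  have b1 : -(22 * y) ≤ (k 0 : ℝ) := by rw [hyd]; exact_mod_cast a1
  have b2 : (k 0 : ℝ) ≤ 22 * y := by rw [hyd]; exact_mod_cast a2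
  have b3 : -(2 * y) ≤ (k 1 : ℝ) := by rw [hyd]; exact_mod_cast a3
  have b4 : (k 1 : ℝ) ≤ 2 * y := by rw [hyd]; exact_mod_cast a4
  have b5 : -y ≤ (k 2 : ℝ) := by rw [hyd]; exact_mod_cast a5
  have b6 : (k 2 : ℝ) ≤ y := by rw [hyd]; exact_mod_cast a6
  constructor
  · refine le_trans ?_ (comp_le hD.old k 0)
    rcases b0 with b0 | b0
    · exact b0.trans (le_abs_self _)
    · exact le_trans (by linarith) (neg_le_abs _)
  · have hsq := norm_vec_sq k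
    have c1 : (k 0 : ℝ) ^ 2 ≤ (22 * y) ^ 2 := sq_le_sq' b1 b2
    have c2 : (k 1 : ℝ) ^ 2 ≤ (2 * y) ^ 2 := sq_le_sq' b3 b4
    have c3 : (k 2 : ℝ) ^ 2 ≤ y ^ 2 := sq_le_sq' b5 b6
    exact le_of_sq_le_sq (by rw [hsq]; nlinarith) (by positivity)

/-- distance to the centre -/
theorem dist_H {n : ℕ} {c k : Z3} (h : k ∈ cube (N n) c) : ‖vec (k - c)‖ ≤ 2 * (N n : ℝ) := by
  rw [mem_cube] at h
  obtain ⟨⟨a1, a2⟩, ⟨a3, a4⟩, ⟨a5, a6⟩⟩ := h
  have hsq := norm_vec_sq (k - c)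
  have key : ∀ i : Fin 3, c i - N n ≤ k i → k i ≤ c i + N n →
      (((k - c) i : ℤ) : ℝ) ^ 2 ≤ (N n : ℝ) ^ 2 := by
    intro i h1 h2
    apply sq_le_sq'
    · have : -(N n : ℤ) ≤ (k - c) i := by rw [Pi.sub_apply]; omega
      exact_mod_cast this
    · have : (k - c) i ≤ (N n : ℤ) := by rw [Pi.sub_apply]; omega
      exact_mod_cast this
  have c1 := key 0 a1 a2
  have c2 := key 1 a3 a4
  have c3 := key 2 a5 a6
  have hx : (0 : ℝ) ≤ N n := Nat.cast_nonneg _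
  exact le_of_sq_le_sq (by rw [hsq]; nlinarith) (by positivity)

theorem hs_bd (n : ℕ) (s : ℝ) (h0 : 0 ≤ s) (hs : s ≤ 5 / 2) :
    ∑' k, ‖vec k‖ ^ s * ‖PP N γ n k‖ ^ 2 ≤ 4 * (20 * (N n : ℝ)) ^ s := by
  rw [tsum_PP hD n _ (fun k hk => by rw [hk]; simp)]
  simp only [norm_PP_sq hD]
  have e : ∀ k, ‖vec k‖ ^ s * (cc N γ n ^ 2 * (bb N γ n k ^ 2 * dt k k)) =
      cc N γ n ^ 2 * (bb N γ n k ^ 2 * (dt k k * ‖vec k‖ ^ s)) := by intro k; ring
  simp only [e]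
  rw [← mul_sum, bb, sum_b_sq (hD.sc.one n) (hD.sc.two n), mul_add]
  have hx := hD.nr n
  have hy := hD.nr (n + 1)
  have hg := hD.gr n
  have hx0 : (0 : ℝ) < N n := by linarith
  have hy0 : (0 : ℝ) < N (n + 1) := by linarith
  have hγ := hD.pos n
  set a : ℝ := (20 * (N n : ℝ)) ^ s with ha
  have ha0 : 0 ≤ a := Real.rpow_nonneg (by positivity) s
  have hc : 0 ≤ cc N γ n ^ 2 := sq_nonneg _
  -- the main part
  have m1 : ∑ k ∈ Q (N n), g (N n) k ^ 2 * (dt k k * ‖vec k‖ ^ s) ≤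
      (3 * a) * ∑ k ∈ Q (N n), g (N n) k ^ 2 * dt k k := by
    rw [mul_sum]
    refine sum_le_sum fun k hk => ?_
    have a1 := (norm_Q hD.old hk).2
    have a2 : ‖vec k‖ ^ s ≤ 3 * a := by
      have := rpow_bd (r := 13 / 10) (a := 20 * (N n : ℝ)) (s := s) (norm_nonneg (vec k))
        (by positivity) (by norm_num) (by linarith) h0 (by linarith)
      refine this.trans (mul_le_mul_of_nonneg_right (by norm_num) ha0)
    have a3 : 0 ≤ g (N n) k ^ 2 * dt k k := mul_nonneg (sq_nonneg _) (dt_nonneg hD k)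
    calc g (N n) k ^ 2 * (dt k k * ‖vec k‖ ^ s) = (g (N n) k ^ 2 * dt k k) * ‖vec k‖ ^ s := by ring
      _ ≤ (g (N n) k ^ 2 * dt k k) * (3 * a) := mul_le_mul_of_nonneg_left a2 a3
      _ = _ := by ring
  have m2 : cc N γ n ^ 2 * ∑ k ∈ Q (N n), g (N n) k ^ 2 * dt k k ≤ 1 := by
    rw [cc_sq hD, inv_mul_eq_div, div_le_one (ZZ_pos hD n), ZZ_eq hD,
      sum_gsq_nrm (hD.sc.one n) (Subset.refl _)]
    have := mul_nonneg (sq_nonneg (γ n)) (sum_hp_dt hD n).1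
    linarith
  have m3 : cc N γ n ^ 2 * ∑ k ∈ Q (N n), g (N n) k ^ 2 * (dt k k * ‖vec k‖ ^ s) ≤ 3 * a := by
    calc _ ≤ cc N γ n ^ 2 * ((3 * a) * ∑ k ∈ Q (N n), g (N n) k ^ 2 * dt k k) :=
          mul_le_mul_of_nonneg_left m1 hc
      _ = (3 * a) * (cc N γ n ^ 2 * ∑ k ∈ Q (N n), g (N n) k ^ 2 * dt k k) := by ring
      _ ≤ (3 * a) * 1 := mul_le_mul_of_nonneg_left m2 (by positivity)
      _ = 3 * a := mul_one _
  -- the small part
  set r : ℝ := (N (n + 1) : ℝ) / N n with hr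
  have hr1 : 1 ≤ r := by rw [hr, le_div_iff₀ hx0]; linarith
  have key : ∀ k, k ∈ cube (N n) (hh (N n) (N (n + 1))) ∨
      k ∈ cube (N n) (-hh (N n) (N (n + 1))) → dt k k * ‖vec k‖ ^ s ≤ dt k k * (3 * r ^ 3 * a) := by
    intro k hk
    refine mul_le_mul_of_nonneg_left ?_ (dt_nonneg hD k)
    have a1 := (norm_H hD hk).2
    have := rpow_bd (r := 13 / 10 * r) (a := 20 * (N n : ℝ)) (s := s) (norm_nonneg (vec k))
      (by positivity) (by linarith) (by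
        rw [hr]
        have : 13 / 10 * ((N (n + 1) : ℝ) / N n) * (20 * N n) = 26 * N (n + 1) := by
          field_simp; norm_num
        rw [this]
        exact a1) h0 (by linarith)
    refine this.trans (mul_le_mul_of_nonneg_right ?_ ha0)
    have : 0 ≤ r ^ 3 := by positivity
    calc (13 / 10 * r) ^ 3 = (13 / 10) ^ 3 * r ^ 3 := by ring
      _ ≤ 3 * r ^ 3 := mul_le_mul_of_nonneg_right (by norm_num) this
  have s1 : ∑ k ∈ cube (N n) (hh (N n) (N (n + 1))), dt k k * ‖vec k‖ ^ s +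
      ∑ k ∈ cube (N n) (-hh (N n) (N (n + 1))), dt k k * ‖vec k‖ ^ s ≤
      (1936 * (m (N n) ^ 3 * (N (n + 1) : ℝ) ^ 2)) * (3 * r ^ 3 * a) := by
    refine (add_le_add (sum_le_sum fun k hk => key k (Or.inl hk))
      (sum_le_sum fun k hk => key k (Or.inr hk))).trans ?_
    rw [← sum_mul, ← sum_mul, ← add_mul]
    exact mul_le_mul_of_nonneg_right (sum_hp_dt hD n).2 (by positivity)
  have s2 : cc N γ n ^ 2 * (γ n ^ 2 * (∑ k ∈ cube (N n) (hh (N n) (N (n + 1))), dt k k * ‖vec k‖ ^ s +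
      ∑ k ∈ cube (N n) (-hh (N n) (N (n + 1))), dt k k * ‖vec k‖ ^ s)) ≤ a := by
    have hm := m_pos (N n)
    have u2 := (u_bd hD n).2
    have hk1 : kap ≤ 1 := by unfold kap; norm_num
    have h5 := hD.sm5 n
    have hu : cc N γ n ^ 2 * V (N n) ≤ 1 := u2.trans hk1
    have hu' : cc N γ n ^ 2 * ((N n : ℝ) ^ 2 * m (N n) ^ 3) ≤ 1 := hu
    have hf : γ n ^ 2 * (N (n + 1) : ℝ) ^ 5 / (N n : ℝ) ^ 5 ≤ 1 / 10 ^ 24 := by
      rw [div_le_div_iff₀ (by positivity) (by positivity)]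
      linarith
    calc _ ≤ cc N γ n ^ 2 * (γ n ^ 2 * ((1936 * (m (N n) ^ 3 * (N (n + 1) : ℝ) ^ 2)) *
          (3 * r ^ 3 * a))) :=
          mul_le_mul_of_nonneg_left (mul_le_mul_of_nonneg_left s1 (sq_nonneg _)) hc
      _ = (cc N γ n ^ 2 * ((N n : ℝ) ^ 2 * m (N n) ^ 3)) * (5808 *
          (γ n ^ 2 * (N (n + 1) : ℝ) ^ 5 / (N n : ℝ) ^ 5) * a) := by
          rw [hr]; field_simp; ring
      _ ≤ 1 * (5808 * (1 / 10 ^ 24) * a) := by
          refine mul_le_mul hu' ?_ (by positivity) (by norm_num)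
          exact mul_le_mul_of_nonneg_right (mul_le_mul_of_nonneg_left hf (by norm_num)) ha0
      _ ≤ a := by
          have : (5808 : ℝ) * (1 / 10 ^ 24) ≤ 1 := by norm_num
          nlinarith
  linarith

theorem l1_bd (n : ℕ) : ∑' k, ‖PP N γ n k‖ ≤ √((20 * (N n : ℝ)) ^ 3) := by
  rw [tsum_PP hD n _ (fun k hk => by rw [hk]; simp)]
  apply Real.le_sqrt_of_sq_le
  refine (sq_sum_le_card_mul_sum_sq).trans ?_
  have h1 : ∑ k ∈ SS (N n) (N (n + 1)), ‖PP N γ n k‖ ^ 2 = 1 := by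
    simp only [norm_PP_sq hD]
    rw [← mul_sum, cc_sq hD, ← ZZ, inv_mul_cancel₀ (ZZ_pos hD n).ne']
  rw [h1, mul_one]
  have hc : ((SS (N n) (N (n + 1))).card : ℝ) ≤ 6 * m (N n) ^ 3 := by
    have a1 : (SS (N n) (N (n + 1))).card ≤ (Q (N n)).card +
        ((cube (N n) (hh (N n) (N (n + 1)))).card + (cube (N n) (-hh (N n) (N (n + 1)))).card) := by
      refine (card_union_le _ _).trans ?_
      have := card_union_le (cube (N n) (hh (N n) (N (n + 1)))) (cube (N n) (-hh (N n) (N (n + 1))))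
      unfold H
      omega
    have a2 : (Q (N n)).card ≤ (cube (N n) (c0 (N n))).card + (cube (N n) (c1 (N n))).card +
        ((cube (N n) (c2 (N n))).card + (cube (N n) (c3 (N n))).card) := by
      refine (card_union_le _ _).trans ?_
      have b1 := card_union_le (cube (N n) (c0 (N n))) (cube (N n) (c1 (N n)))
      have b2 := card_union_le (cube (N n) (c2 (N n))) (cube (N n) (c3 (N n)))
      omega
    have a3 : ((SS (N n) (N (n + 1))).card : ℝ) ≤ ((cube (N n) (c0 (N n))).card : ℝ) +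
        (cube (N n) (c1 (N n))).card + ((cube (N n) (c2 (N n))).card +
        (cube (N n) (c3 (N n))).card) + ((cube (N n) (hh (N n) (N (n + 1)))).card +
        (cube (N n) (-hh (N n) (N (n + 1)))).card) := by
      exact_mod_cast a1.trans (Nat.add_le_add_right a2 _)
    simp only [card_cube] at a3
    linarith
  refine hc.trans ?_
  have hm := (m3_bd hD n).2
  have h2 : (0 : ℝ) ≤ (N n : ℝ) ^ 3 := by positivity
  nlinarith

theorem ff_sum (n : ℕ) : 23 * (N n : ℝ) * m (N n) ^ 3 ≤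
    ∑ k ∈ SS (N n) (N (n + 1)), bb N γ n k * ff (N n) k := by
  have o1 := hD.sc.one n
  have hm := m_pos (N n)
  rw [bb, sum_b]
  have h1 : 8 * (N n : ℝ) * (3 * m (N n) ^ 3) ≤ ∑ k ∈ Q (N n), g (N n) k * ff (N n) k := by
    rw [← sum_g_one (Subset.refl (Q (N n))), mul_sum]
    refine sum_le_sum fun k hk => ?_
    rw [mul_comm]
    exact mul_le_mul_of_nonneg_left (ff_Q o1 hk) (g_nonneg _ _)
  have h2 : -(m (N n) ^ 3 * (22 * (N (n + 1) : ℝ))) ≤
      ∑ k ∈ cube (N n) (hh (N n) (N (n + 1))), ff (N n) k := by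
    have : ∑ k ∈ cube (N n) (hh (N n) (N (n + 1))), -(22 * (N (n + 1) : ℝ)) =
        -(m (N n) ^ 3 * (22 * (N (n + 1) : ℝ))) := by
      rw [sum_const, nsmul_eq_mul, card_cube]; ring
    rw [← this]
    refine sum_le_sum fun k hk => ?_
    have := (hp_abs (gr11 hD n) hk).1
    have := ff_abs (N n) k
    linarith
  have h3 : -(m (N n) ^ 3 * (22 * (N (n + 1) : ℝ))) ≤
      ∑ k ∈ cube (N n) (-hh (N n) (N (n + 1))), ff (N n) k := by
    have : ∑ k ∈ cube (N n) (-hh (N n) (N (n + 1))), -(22 * (N (n + 1) : ℝ)) =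
        -(m (N n) ^ 3 * (22 * (N (n + 1) : ℝ))) := by
      rw [sum_const, nsmul_eq_mul, card_cube]; ring
    rw [← this]
    refine sum_le_sum fun k hk => ?_
    have := (hm_abs (gr11 hD n) hk).1
    have := ff_abs (N n) k
    linarith
  have h4 := hD.sm1 n
  have h5 := (hD.pos n).le
  have hx := hD.nr n
  have h7 : 44 * (γ n * (N (n + 1) : ℝ)) ≤ N n := by
    have : 0 ≤ γ n * (N (n + 1) : ℝ) := mul_nonneg h5 (Nat.cast_nonneg _)
    linarith
  have h6 : -((N n : ℝ) * m (N n) ^ 3) ≤ γ n * (∑ k ∈ cube (N n) (hh (N n) (N (n + 1))), ff (N n) k +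
      ∑ k ∈ cube (N n) (-hh (N n) (N (n + 1))), ff (N n) k) := by
    calc -((N n : ℝ) * m (N n) ^ 3) ≤ -((44 * (γ n * (N (n + 1) : ℝ))) * m (N n) ^ 3) :=
          neg_le_neg (mul_le_mul_of_nonneg_right h7 (pow_pos hm 3).le)
      _ = γ n * (-(m (N n) ^ 3 * (22 * (N (n + 1) : ℝ))) +
          -(m (N n) ^ 3 * (22 * (N (n + 1) : ℝ)))) := by ring
      _ ≤ _ := mul_le_mul_of_nonneg_left (add_le_add h2 h3) h5
  have h8 : 23 * (N n : ℝ) * m (N n) ^ 3 = 8 * (N n : ℝ) * (3 * m (N n) ^ 3) +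
      -((N n : ℝ) * m (N n) ^ 3) := by ring
  rw [h8]
  exact add_le_add h1 h6

theorem pt_comp (n : ℕ) : (∑' k : Z3, Real.sin (2 * Real.pi * inner ℝ (vec k) (yy (N n))) •
    PP N γ n k) 1 = -(cc N γ n * ∑ k ∈ SS (N n) (N (n + 1)), bb N γ n k * ff (N n) k) := by
  rw [tsum_eq_sum (s := SS (N n) (N (n + 1)))]
  · have e : ∀ (s : Finset Z3) (F : Z3 → E3), (∑ k ∈ s, F k) 1 = ∑ k ∈ s, F k 1 := by
      intro s F
      exact map_sum (EuclideanSpace.proj (𝕜 := ℝ) (1 : Fin 3)) F s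
    rw [e, mul_sum, ← sum_neg_distrib]
    refine sum_congr rfl fun k _ => ?_
    rw [inner_yy, ff, PP, fam, perp]
    simp
    ring
  · intro k hk
    have : PP N γ n k = 0 := by
      by_contra h
      exact hk (mem_of_PP hD h)
    rw [this, smul_zero]

theorem pt_bd (n : ℕ) : √((20 * (N n : ℝ)) ^ 3) / 1000 ≤
    ‖∑' k : Z3, Real.sin (2 * Real.pi * inner ℝ (vec k) (yy (N n))) • PP N γ n k‖ := by
  refine le_trans ?_ (norm_ge hD.old _ 1)
  rw [pt_comp hD, abs_neg]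
  have hc := cc_pos hD n
  have hx := hD.nr n
  have hm0 := m_pos (N n)
  have h1 := ff_sum hD n
  have h0 : 0 ≤ 23 * (N n : ℝ) * m (N n) ^ 3 := by positivity
  have h2 := ZZ_hi hD n
  have h3 := ZZ_pos hD n
  rw [abs_of_nonneg (mul_nonneg hc.le (h0.trans h1))]
  refine le_trans ?_ (mul_le_mul_of_nonneg_left h1 hc.le)
  rw [div_le_iff₀ (by norm_num), Real.sqrt_le_left (by positivity)]
  have h4 : (cc N γ n * (23 * (N n : ℝ) * m (N n) ^ 3) * 1000) ^ 2 =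
      cc N γ n ^ 2 * (529000000 * (V (N n) * m (N n) ^ 3)) := by
    rw [V]; ring
  rw [h4, cc_sq hD, inv_mul_eq_div, le_div_iff₀ h3]
  have h5 := (m3_bd hD n).1
  have hV := V_pos hD n
  have h6 : ZZ N γ n ≤ 2000 * V (N n) := h2.trans (by nlinarith)
  calc (20 * (N n : ℝ)) ^ 3 * ZZ N γ n ≤ (20 * (N n : ℝ)) ^ 3 * (2000 * V (N n)) :=
        mul_le_mul_of_nonneg_left h6 (by positivity)
    _ = 2000000 * (V (N n) * (8 * (N n : ℝ) ^ 3)) := by ring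
    _ ≤ 2000000 * (V (N n) * m (N n) ^ 3) :=
        mul_le_mul_of_nonneg_left (mul_le_mul_of_nonneg_left h5 hV.le) (by norm_num)
    _ ≤ _ := by
        have : 0 ≤ V (N n) * m (N n) ^ 3 := by positivity
        linarith

end

end Pool.Agent.Y155.NE
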