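import Pool.Agent.Y155.NE.E6
import Pool.Agent.Y5.E.Stm

/-!
# Existence of the packets: `S_TAB2`
-/

set_option autoImplicit false
set_option linter.unusedSectionVars false

namespace Pool.Agent.Y155.NE

open Pool.Agent.Y5 Pool.Agent.Y5.D Pool.Agent.Y155.ND Finset

section
variable {N : ℕ → ℕ} {γ : ℕ → ℝ} (hD : Da N γ) {K : ℕ → ℕ} (hK : ∀ n, K n = 20 * N n)
include hD hK

theorem bil_B (j n : ℕ) : bil (PP N γ n) (PP N γ j) (PP N γ n) =
    bet * ((K j : ℝ) ^ 2 * √(K j : ℝ)) * BB N γ j n := by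
  have hs := sr_pos (hD.sc.one j)
  rw [bil_PP hD, bet_K (hK j), BB]
  field_simp

theorem bil_C (n : ℕ) : bil (PP N γ n) (PP N γ n) (PP N γ (n + 1)) =
    bet * ((K n : ℝ) ^ 2 * √(K n : ℝ)) * CC N γ n := by
  have hs := sr_pos (hD.sc.one n)
  rw [bil_PP hD, bet_K (hK n), CC]
  field_simp

theorem bil_lt {i j n : ℕ} (hj : j < n) : bil (PP N γ i) (PP N γ j) (PP N γ n) =
    (if i = n then bet * ((K j : ℝ) ^ 2 * √(K j : ℝ)) * BB N γ j n else 0) +
    (if i = j ∧ n = j + 1 then bet * ((K j : ℝ) ^ 2 * √(K j : ℝ)) * CC N γ j else 0) := by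
  by_cases h1 : i = n
  · subst h1
    rw [if_pos rfl, if_neg (by omega), add_zero]
    exact bil_B hD hK j i
  · rw [if_neg h1, zero_add]
    by_cases h2 : i = j ∧ n = j + 1
    · rw [if_pos h2, h2.1, h2.2]
      exact bil_C hD hK j
    · rw [if_neg h2]
      exact bil_PP_zero hD hj h1 h2

theorem table (i j n : ℕ) : bil (PP N γ i) (PP N γ j) (PP N γ n) =
    (if i = n ∧ j < n then bet * ((K j : ℝ) ^ 2 * √(K j : ℝ)) * BB N γ j n else 0)
    + (if i = j ∧ n < i then -(bet * ((K n : ℝ) ^ 2 * √(K n : ℝ)) * BB N γ n i) else 0)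
    + (if i = j ∧ n = i + 1 then bet * ((K i : ℝ) ^ 2 * √(K i : ℝ)) * CC N γ i else 0)
    + (if i = n ∧ j = n + 1 then -(bet * ((K n : ℝ) ^ 2 * √(K n : ℝ)) * CC N γ n) else 0) := by
  rcases lt_trichotomy j n with h | h | h
  · rw [bil_lt hD hK h, if_neg (by omega : ¬(i = j ∧ n < i)), if_neg (by omega : ¬(i = n ∧ j = n + 1)),
      add_zero, add_zero]
    congr 1
    · by_cases h1 : i = n
      · rw [if_pos h1, if_pos ⟨h1, h⟩]
      · rw [if_neg h1, if_neg (fun h2 => h1 h2.1)]
    · by_cases h1 : i = j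
      · subst h1
        rfl
      · rw [if_neg (fun h2 => h1 h2.1), if_neg (fun h2 => h1 h2.1)]
  · subst h
    rw [bil_PP_diag hD, if_neg (by omega), if_neg (by omega), if_neg (by omega), if_neg (by omega)]
    ring
  · rw [bil_PP_anti hD, bil_lt hD hK h, if_neg (by omega : ¬(i = n ∧ j < n)),
      if_neg (by omega : ¬(i = j ∧ n = i + 1)), add_zero, zero_add, neg_add]
    congr 1
    · by_cases h1 : i = j
      · subst h1
        rw [if_pos rfl, if_pos ⟨rfl, h⟩]
      · rw [if_neg h1, if_neg (fun h2 => h1 h2.1), neg_zero]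
    · by_cases h1 : i = n ∧ j = n + 1
      · rw [if_pos h1, if_pos h1]
      · rw [if_neg h1, if_neg h1, neg_zero]

theorem KR (n : ℕ) : (K n : ℝ) = 20 * N n := by rw [hK]; push_cast; ring

theorem K_sqrt (n : ℕ) : (K n : ℝ) * √(K n : ℝ) = √((20 * (N n : ℝ)) ^ 3) := by
  rw [← KR hD hK, show (K n : ℝ) ^ 3 = (K n : ℝ) ^ 2 * K n by ring, Real.sqrt_mul (by positivity),
    Real.sqrt_sq (by positivity)]

theorem K_div (n : ℕ) : (K (n + 1) : ℝ) / K n = (N (n + 1) : ℝ) / N n := by
  rw [KR hD hK, KR hD hK, mul_div_mul_left _ _ (by norm_num)]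

theorem tab_thm : Pool.Agent.Y5.E.Tab2 K γ bet 1 4 (fun n => hh (N n) (N (n + 1))) (PP N γ)
    (CC N γ) (BB N γ) where
  ot n := by
    rw [PP]
    exact fam_ot fun k => by rw [bb_neg]
  supp n k hk := by
    rw [KR hD hK]
    rcases mem_SS.1 (mem_of_PP hD hk) with h | h | h
    · left
      have := norm_Q hD.old h
      exact ⟨this.1, by linarith [this.2]⟩
    · right; left
      have := dist_H hD h
      linarith
    · right; right
      have := dist_H hD h
      rw [sub_neg_eq_add] at this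
      linarith
  hnorm n := by
    have := norm_hh_bd hD.old n
    have hn : (0 : ℝ) ≤ N (n + 1) := Nat.cast_nonneg _
    rw [KR hD hK]
    exact ⟨by linarith [this.1], by linarith [this.2]⟩
  hdist n k hk hk2 := by
    rw [KR hD hK] at hk2 ⊢
    have hn := hD.nr n
    have hn1 := hD.nr (n + 1)
    have hg := hD.gr (n + 1)
    rcases mem_SS.1 (mem_of_PP hD hk) with h | h | h
    · have := dist_hh hD.old h
      exact ⟨by linarith [this.1], by linarith [this.2]⟩
    · have := (norm_H hD (Or.inl h)).1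
      linarith
    · have := (norm_H hD (Or.inr h)).1
      linarith
  norm1 := norm1 hD
  hs n s h0 h1 := by
    rw [KR hD hK]
    exact hs_bd hD n s h0 h1
  l1 n := by
    rw [one_mul, K_sqrt hD hK]
    exact l1_bd hD n
  pt n := ⟨yy (N n), by
    rw [one_mul, K_sqrt hD hK]
    exact pt_bd hD n⟩
  B_lo i n h := (BB_bd hD h).1
  B_hi i n h := (BB_bd hD h).2
  C_lo n := by
    have hx := hD.nr n
    have hg := hD.gr n
    have hx0 : (0 : ℝ) < N n := by linarith
    have hC := CC_pos hD n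
    have hr : 1 ≤ (N (n + 1) : ℝ) / N n := by rw [le_div_iff₀ hx0]; linarith
    rw [K_div hD hK]
    refine (CC_lo hD n).trans ?_
    have := one_le_pow₀ hr (n := 4)
    nlinarith
  C_hi n := by
    have hx := hD.nr n
    have hg := hD.gr n
    have hx0 : (0 : ℝ) < N n := by linarith
    have hγ := hD.pos n
    have hr : 1 ≤ (N (n + 1) : ℝ) / N n := by rw [le_div_iff₀ hx0]; linarith
    rw [K_div hD hK]
    have h1 : CC N γ n ≤ γ n * ((N (n + 1) : ℝ) / N n) := by
      rw [← mul_div_assoc, le_div_iff₀ hx0]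
      exact CC_hi hD n
    refine h1.trans (mul_le_mul_of_nonneg_left ?_ hγ.le)
    calc (N (n + 1) : ℝ) / N n = ((N (n + 1) : ℝ) / N n) ^ 1 := (pow_one _).symm
      _ ≤ ((N (n + 1) : ℝ) / N n) ^ 4 := pow_le_pow_right₀ hr (by norm_num)
  tab := table hD hK

end

/-- Existence of packets with the interaction table. -/
theorem t_TAB2 : Pool.Agent.Y5.E.S_TAB2 := by
  refine ⟨bet, 1, 4, 2000000000, bet_pos, one_pos, by norm_num, fun K γ h0 hK h20 hγ => ?_⟩
  have hKN : ∀ n, K n = 20 * (K n / 20) := fun n => by have := h20 n; omega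
  have hN0 : ∀ n, 100000000 ≤ K n / 20 := by
    intro n
    induction n with
    | zero => omega
    | succ n ih =>
      have := hK n
      omega
  have hD : Da (fun n => K n / 20) γ := by
    refine ⟨⟨fun n => ?_, fun n => ?_⟩, hN0, fun n => (hγ n).1, fun n => ?_⟩
    · have := hN0 n
      show 1 ≤ K n / 20
      omega
    · have := hK n
      have := hN0 n
      show 100000000 * (K n / 20) ≤ K (n + 1) / 20
      omega
    · have h1 := (hγ n).2
      have h2 : (K (n + 1) : ℝ) = 20 * ((K (n + 1) / 20 : ℕ) : ℝ) := by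
        exact_mod_cast hKN (n + 1)
      have h3 : (K n : ℝ) = 20 * ((K n / 20 : ℕ) : ℝ) := by
        exact_mod_cast hKN n
      have h4 : (100000000 : ℝ) ≤ ((K n / 20 : ℕ) : ℝ) := by exact_mod_cast hN0 n
      show γ n * ((K (n + 1) / 20 : ℕ) : ℝ) ^ 4 ≤ ((K n / 20 : ℕ) : ℝ) ^ 4
      rw [h2, h3, mul_div_mul_left _ _ (by norm_num), div_pow, ← mul_div_assoc,
        div_le_one (by positivity)] at h1
      exact h1
  exact ⟨_, _, _, _, tab_thm hD hKN⟩

end Pool.Agent.Y155.NE
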